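import Mathlib

set_option autoImplicit false
set_option linter.unusedSectionVars false

namespace Pool.Agent.Carlet

open Finset Module

variable {K : Type*} [Field K] [Fintype K] [Algebra (ZMod 2) K]

theorem add_self (x : K) : x + x = 0 := by
  have h : (2 : ZMod 2) = 0 := rfl
  calc x + x = (1 : ZMod 2) • x + (1 : ZMod 2) • x := by rw [one_smul]
    _ = ((1 : ZMod 2) + 1) • x := (add_smul _ _ _).symm
    _ = (2 : ZMod 2) • x := by norm_num
    _ = 0 := by rw [h, zero_smul]

theorem add_eq_zero_iff' {x y : K} : x + y = 0 ↔ x = y := by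
  constructor
  · intro h
    calc x = x + (y + y) := by rw [add_self, add_zero]
      _ = (x + y) + y := by ring
      _ = y := by rw [h, zero_add]
  · rintro rfl
    exact add_self x

theorem add_add_cancel' (x y : K) : x + y + y = x := by
  rw [add_assoc, add_self, add_zero]

theorem zmod2_cases (c : ZMod 2) : c = 0 ∨ c = 1 := by
  fin_cases c
  · exact Or.inl rfl
  · exact Or.inr rfl

open Classical in
/-- Elements of a subspace as a finite set. -/
noncomputable def el (H : Submodule (ZMod 2) K) : Finset K := Finset.univ.filter (fun x => x ∈ H)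

theorem mem_el {H : Submodule (ZMod 2) K} {x : K} : x ∈ el H ↔ x ∈ H := by
  unfold el
  simp

theorem card_el (H : Submodule (ZMod 2) K) : (el H).card = 2 ^ finrank (ZMod 2) H := by
  classical
  have h1 := Module.card_eq_pow_finrank (K := ZMod 2) (V := H)
  rw [ZMod.card] at h1
  rw [← h1, Fintype.card_subtype]
  unfold el
  rfl

theorem zero_mem_el (H : Submodule (ZMod 2) K) : (0 : K) ∈ el H := mem_el.mpr H.zero_mem

/-- One step extension. -/
def ext (H : Submodule (ZMod 2) K) (x : K) : Submodule (ZMod 2) K :=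
  H ⊔ Submodule.span (ZMod 2) {x}

theorem mem_ext {H : Submodule (ZMod 2) K} {x y : K} : y ∈ ext H x ↔ y ∈ H ∨ y + x ∈ H := by
  unfold ext
  rw [Submodule.mem_sup]
  constructor
  · rintro ⟨h, hh, z, hz, rfl⟩
    rw [Submodule.mem_span_singleton] at hz
    obtain ⟨c, rfl⟩ := hz
    rcases zmod2_cases c with rfl | rfl
    · left; simpa using hh
    · right
      rw [one_smul, add_add_cancel']
      exact hh
  · rintro (h | h)
    · exact ⟨y, h, 0, Submodule.zero_mem _, add_zero y⟩
    · exact ⟨y + x, h, x, Submodule.mem_span_singleton_self x, add_add_cancel' y x⟩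

theorem le_ext (H : Submodule (ZMod 2) K) (x : K) : H ≤ ext H x := le_sup_left

theorem self_mem_ext (H : Submodule (ZMod 2) K) (x : K) : x ∈ ext H x :=
  mem_ext.mpr (Or.inr (by rw [add_self]; exact H.zero_mem))

open Classical in
theorem el_ext (H : Submodule (ZMod 2) K) (x : K) :
    el (ext H x) = el H ∪ (el H).image (fun v => v + x) := by
  ext y
  rw [mem_el, mem_ext, Finset.mem_union, Finset.mem_image, mem_el]
  constructor
  · rintro (h | h)
    · exact Or.inl h
    · exact Or.inr ⟨y + x, mem_el.mpr h, add_add_cancel' y x⟩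
  · rintro (h | ⟨v, hv, rfl⟩)
    · exact Or.inl h
    · right
      rw [add_add_cancel']
      exact mem_el.mp hv

open Classical in
theorem disj_ext {H : Submodule (ZMod 2) K} {x : K} (hx : x ∉ H) :
    Disjoint (el H) ((el H).image (fun v => v + x)) := by
  rw [Finset.disjoint_left]
  intro y hy hy'
  rw [Finset.mem_image] at hy'
  obtain ⟨v, hv, rfl⟩ := hy'
  rw [mem_el] at hy hv
  apply hx
  have := H.add_mem hy hv
  have h2 : v + x + v = x := by
    rw [add_comm v x, add_add_cancel']
  rwa [h2] at this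

theorem add_inj (x : K) : Function.Injective (fun v : K => v + x) := fun a b h => by
  simpa using h

theorem finrank_ext {H : Submodule (ZMod 2) K} {x : K} (hx : x ∉ H) :
    finrank (ZMod 2) (ext H x) = finrank (ZMod 2) H + 1 := by
  classical
  have h1 : (el (ext H x)).card = 2 * (el H).card := by
    rw [el_ext, Finset.card_union_of_disjoint (disj_ext hx),
      Finset.card_image_of_injective _ (add_inj x)]
    ring
  rw [card_el, card_el, ← pow_succ'] at h1
  exact Nat.pow_right_injective (le_refl 2) h1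

/-- Covering relation. -/
def Cv (H G : Submodule (ZMod 2) K) : Prop := H ≤ G ∧ finrank (ZMod 2) G = finrank (ZMod 2) H + 1

theorem cv_ext {H : Submodule (ZMod 2) K} {x : K} (hx : x ∉ H) : Cv H (ext H x) :=
  ⟨le_ext H x, finrank_ext hx⟩

theorem Cv.exists_mem {H G : Submodule (ZMod 2) K} (h : Cv H G) : ∃ x, x ∈ G ∧ x ∉ H := by
  by_contra hcon
  push Not at hcon
  have : G ≤ H := fun x hx => hcon x hx
  have h2 : G = H := le_antisymm this h.1
  have h3 := h.2
  rw [h2] at h3
  omega

theorem Cv.eq_ext {H G : Submodule (ZMod 2) K} (h : Cv H G) {x : K} (hx : x ∈ G) (hxH : x ∉ H) :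
    G = ext H x := by
  symm
  apply Submodule.eq_of_le_of_finrank_eq
  · unfold ext
    exact sup_le h.1 (by rw [Submodule.span_singleton_le_iff_mem]; exact hx)
  · rw [finrank_ext hxH, h.2]

noncomputable def Lf (H : Submodule (ZMod 2) K) (x : K) : K := ∏ v ∈ el H, (x + v)

open Classical in
noncomputable def aH (H : Submodule (ZMod 2) K) : K := ∏ v ∈ (el H).erase 0, v

noncomputable def SH (H : Submodule (ZMod 2) K) : K := ∑ v ∈ el H, v⁻¹

theorem Lf_eq_zero {H : Submodule (ZMod 2) K} {x : K} : Lf H x = 0 ↔ x ∈ H := by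
  unfold Lf
  rw [Finset.prod_eq_zero_iff]
  constructor
  · rintro ⟨v, hv, h⟩
    rw [add_eq_zero_iff'.mp h]
    exact mem_el.mp hv
  · intro h
    exact ⟨x, mem_el.mpr h, add_self x⟩

theorem aH_ne_zero (H : Submodule (ZMod 2) K) : aH H ≠ 0 := by
  classical
  unfold aH
  rw [Finset.prod_ne_zero_iff]
  intro v hv
  exact (Finset.mem_erase.mp hv).1

theorem Lf_ext {H : Submodule (ZMod 2) K} {x : K} (hx : x ∉ H) (y : K) :
    Lf (ext H x) y = Lf H y * Lf H (y + x) := by
  classical
  unfold Lf
  rw [el_ext, Finset.prod_union (disj_ext hx), Finset.prod_image (fun a _ b _ h => add_inj x h)]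
  congr 1
  apply Finset.prod_congr rfl
  intro v _
  ring

theorem aH_ext {H : Submodule (ZMod 2) K} {x : K} (hx : x ∉ H) :
    aH (ext H x) = aH H * Lf H x := by
  classical
  unfold aH Lf
  have h1 : (el (ext H x)).erase 0 = (el H).erase 0 ∪ (el H).image (fun v => v + x) := by
    rw [el_ext, Finset.erase_union_distrib]
    congr 1
    apply Finset.erase_eq_of_notMem
    intro hcon
    exact Finset.disjoint_left.mp (disj_ext hx) (zero_mem_el H) hcon
  rw [h1, Finset.prod_union, Finset.prod_image (fun a _ b _ h => add_inj x h)]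
  · congr 1
    apply Finset.prod_congr rfl
    intro v _
    ring
  · exact Finset.disjoint_of_subset_left (Finset.erase_subset _ _) (disj_ext hx)

theorem SH_ext {H : Submodule (ZMod 2) K} {x : K} (hx : x ∉ H) :
    SH (ext H x) = SH H + ∑ v ∈ el H, (x + v)⁻¹ := by
  classical
  unfold SH
  rw [el_ext, Finset.sum_union (disj_ext hx), Finset.sum_image (fun a _ b _ h => add_inj x h)]
  congr 1
  apply Finset.sum_congr rfl
  intro v _
  rw [add_comm]

/-- Nonzero functionals give hyperplanes. -/
noncomputable def kerf {G : Submodule (ZMod 2) K} (f : Module.Dual (ZMod 2) G) :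
    Submodule (ZMod 2) K := (LinearMap.ker f).map G.subtype

theorem mem_kerf {G : Submodule (ZMod 2) K} {f : Module.Dual (ZMod 2) G} {x : K} (hx : x ∈ G) :
    x ∈ kerf f ↔ f ⟨x, hx⟩ = 0 := by
  unfold kerf
  rw [Submodule.mem_map]
  constructor
  · rintro ⟨y, hy, rfl⟩
    exact hy
  · intro h
    exact ⟨⟨x, hx⟩, h, rfl⟩

theorem kerf_le {G : Submodule (ZMod 2) K} (f : Module.Dual (ZMod 2) G) : kerf f ≤ G := by
  unfold kerf
  exact Submodule.map_subtype_le _ _

theorem cv_kerf {G : Submodule (ZMod 2) K} {f : Module.Dual (ZMod 2) G} (hf : f ≠ 0) :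
    Cv (kerf f) G := by
  refine ⟨kerf_le f, ?_⟩
  have h1 := LinearMap.finrank_range_add_finrank_ker f
  have h2 : finrank (ZMod 2) (LinearMap.range f) = 1 := by
    have hsurj : Function.Surjective f := LinearMap.surjective hf
    rw [LinearMap.range_eq_top.mpr hsurj, finrank_top]
    exact Module.finrank_self _
  have h3 : finrank (ZMod 2) (kerf f) = finrank (ZMod 2) (LinearMap.ker f) := by
    unfold kerf
    exact LinearEquiv.finrank_eq (Submodule.equivMapOfInjective _ G.subtype_injective _).symm
  omega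

theorem kerf_injective {G : Submodule (ZMod 2) K} :
    Function.Injective (kerf : Module.Dual (ZMod 2) G → Submodule (ZMod 2) K) := by
  intro f g h
  ext ⟨x, hx⟩
  have h1 : x ∈ kerf f ↔ x ∈ kerf g := by rw [h]
  rw [mem_kerf hx, mem_kerf hx] at h1
  rcases zmod2_cases (f ⟨x, hx⟩) with h2 | h2
  · rw [h2, h1.mp h2]
  · rcases zmod2_cases (g ⟨x, hx⟩) with h3 | h3
    · have := h1.mpr h3
      rw [this] at h2
      exact absurd h2 (by decide)
    · rw [h2, h3]

theorem exists_hyp {G : Submodule (ZMod 2) K} (hG : 0 < finrank (ZMod 2) G) : ∃ H, Cv H G := by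
  have : Nontrivial G := Module.finrank_pos_iff.mp hG
  obtain ⟨x, hx⟩ := exists_ne (0 : G)
  have h := (Module.forall_dual_apply_eq_zero_iff (ZMod 2) x).not.mpr hx
  push Not at h
  obtain ⟨f, hf⟩ := h
  exact ⟨kerf f, cv_kerf (fun h => hf (by rw [h]; rfl))⟩

/-- Additivity of `Lf` and the partial fraction identity. -/
theorem main_ind (j : ℕ) : ∀ H : Submodule (ZMod 2) K, finrank (ZMod 2) H = j →
    (∀ x y, Lf H (x + y) = Lf H x + Lf H y) ∧
    (∀ x, x ∉ H → ∑ v ∈ el H, (x + v)⁻¹ = aH H / Lf H x) := by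
  classical
  induction j with
  | zero =>
    intro H hH
    have hbot : H = ⊥ := Submodule.finrank_eq_zero.mp hH
    have hel : el H = {0} := by
      ext x
      rw [mem_el, hbot, Submodule.mem_bot, Finset.mem_singleton]
    have hL : ∀ x, Lf H x = x := by
      intro x
      unfold Lf
      rw [hel, Finset.prod_singleton, add_zero]
    refine ⟨fun x y => by rw [hL, hL, hL], fun x _ => ?_⟩
    unfold aH
    rw [hel, Finset.sum_singleton, hL, add_zero]
    simp
  | succ j ih =>
    intro G hG
    obtain ⟨H, hHG⟩ := exists_hyp (G := G) (by omega)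
    obtain ⟨z, hzG, hzH⟩ := hHG.exists_mem
    have hGe := hHG.eq_ext hzG hzH
    have hHj : finrank (ZMod 2) H = j := by
      have := hHG.2
      omega
    obtain ⟨ih1, ih2⟩ := ih H hHj
    rw [hGe]
    have hL : ∀ x, Lf (ext H z) x = Lf H x * (Lf H x + Lf H z) := fun x => by
      rw [Lf_ext hzH, ih1]
    refine ⟨fun x y => ?_, fun x hx => ?_⟩
    · rw [hL, hL, hL, ih1]
      have h1 : Lf H x * Lf H y + Lf H x * Lf H y = 0 := add_self _
      linear_combination h1
    · have hxH : x ∉ H := fun h => hx (le_ext H z h)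
      have hxz : x + z ∉ H := fun h => hx (mem_ext.mpr (Or.inr h))
      have hLx : Lf H x ≠ 0 := fun h => hxH (Lf_eq_zero.mp h)
      have hLxz : Lf H (x + z) ≠ 0 := fun h => hxz (Lf_eq_zero.mp h)
      rw [el_ext, Finset.sum_union (disj_ext hzH),
        Finset.sum_image (fun a _ b _ h => add_inj z h), ih2 x hxH]
      have h2 : ∑ v ∈ el H, (x + (v + z))⁻¹ = aH H / Lf H (x + z) := by
        rw [← ih2 _ hxz]
        apply Finset.sum_congr rfl
        intro v _
        congr 1
        ring
      rw [h2, aH_ext hzH, Lf_ext hzH]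
      rw [div_add_div _ _ hLx hLxz]
      congr 1
      rw [ih1]
      have h1 : aH H * Lf H x + aH H * Lf H x = 0 := add_self _
      linear_combination h1

theorem Lf_add (H : Submodule (ZMod 2) K) (x y : K) : Lf H (x + y) = Lf H x + Lf H y :=
  (main_ind _ H rfl).1 x y

theorem sum_inv_add {H : Submodule (ZMod 2) K} {x : K} (hx : x ∉ H) :
    ∑ v ∈ el H, (x + v)⁻¹ = aH H / Lf H x :=
  (main_ind _ H rfl).2 x hx

theorem SH_ext' {H : Submodule (ZMod 2) K} {x : K} (hx : x ∉ H) :
    SH (ext H x) = SH H + aH H / Lf H x := by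
  rw [SH_ext hx, sum_inv_add hx]

theorem Lf_ext' {H : Submodule (ZMod 2) K} {x : K} (hx : x ∉ H) (y : K) :
    Lf (ext H x) y = Lf H y ^ 2 + Lf H x * Lf H y := by
  rw [Lf_ext hx, Lf_add]
  ring

theorem Cv.Lf_eq {H G : Submodule (ZMod 2) K} (h : Cv H G) {x : K} (hx : x ∈ G) (hxH : x ∉ H) :
    Lf H x = aH G / aH H := by
  rw [h.eq_ext hx hxH, aH_ext hxH, mul_comm, mul_div_assoc, div_self (aH_ne_zero H), mul_one]

/-- `L_G = L_H^2 + c L_H`. -/
theorem Cv.Lf_G {H G : Submodule (ZMod 2) K} (h : Cv H G) (y : K) :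
    Lf G y = Lf H y ^ 2 + (aH G / aH H) * Lf H y := by
  obtain ⟨x, hx, hxH⟩ := h.exists_mem
  rw [← h.Lf_eq hx hxH, h.eq_ext hx hxH, Lf_ext' hxH]

theorem Cv.SH_G {H G : Submodule (ZMod 2) K} (h : Cv H G) :
    SH G = SH H + aH H ^ 2 / aH G := by
  obtain ⟨x, hx, hxH⟩ := h.exists_mem
  have h1 := h.Lf_eq hx hxH
  have h2 : SH G = SH H + aH H / Lf H x := by
    conv_lhs => rw [h.eq_ext hx hxH]
    exact SH_ext' hxH
  rw [h2, h1]
  have := aH_ne_zero H
  have := aH_ne_zero G
  field_simp

open Polynomial in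
theorem Lf_poly (H : Submodule (ZMod 2) K) :
    ∃ P : K[X], P.Monic ∧ P.natDegree = 2 ^ finrank (ZMod 2) H ∧ ∀ x, P.eval x = Lf H x := by
  classical
  refine ⟨∏ v ∈ el H, (X + C v), ?_, ?_, ?_⟩
  · exact Polynomial.monic_prod_of_monic _ _ (fun v _ => Polynomial.monic_X_add_C v)
  · rw [Polynomial.natDegree_prod_of_monic _ _ (fun v _ => Polynomial.monic_X_add_C v)]
    simp only [Polynomial.natDegree_X_add_C, Finset.sum_const, smul_eq_mul, mul_one]
    exact card_el H
  · intro x
    unfold Lf
    rw [Polynomial.eval_prod]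
    simp

open Polynomial in
/-- Injectivity: two hyperplanes of `G` with the same `a_H` coincide. -/
theorem hyp_inj {H H' G : Submodule (ZMod 2) K} (h : Cv H G) (h' : Cv H' G)
    (ha : aH H = aH H') : H = H' := by
  classical
  obtain ⟨P, hP1, hP2, hP3⟩ := Lf_poly H
  obtain ⟨Q, hQ1, hQ2, hQ3⟩ := Lf_poly H'
  have hdeg : finrank (ZMod 2) H = finrank (ZMod 2) H' := by
    have := h.2; have := h'.2; omega
  set c := aH G / aH H with hc
  have hc0 : c ≠ 0 := div_ne_zero (aH_ne_zero G) (aH_ne_zero H)
  -- D takes values in {0, c}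
  have hD : ∀ y, Lf H y + Lf H' y = 0 ∨ Lf H y + Lf H' y = c := by
    intro y
    have h1 := h.Lf_G y
    have h2 := h'.Lf_G y
    rw [← ha, ← hc] at h2
    rw [← hc] at h1
    have h3 : (Lf H y + Lf H' y) * (Lf H y + Lf H' y + c) = 0 := by
      have h4 : Lf H y ^ 2 + c * Lf H y + (Lf H' y ^ 2 + c * Lf H' y) = 0 := by
        rw [← h1, ← h2]; exact add_self _
      have h5 : Lf H y * Lf H' y + Lf H y * Lf H' y = 0 := add_self _
      linear_combination h4 + h5
    rcases mul_eq_zero.mp h3 with h4 | h4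
    · exact Or.inl h4
    · exact Or.inr (add_eq_zero_iff'.mp h4)
  -- zero set of D
  set Z := Finset.univ.filter (fun y => Lf H y + Lf H' y = 0) with hZ
  have hZcard : 2 ^ finrank (ZMod 2) K ≤ 2 * Z.card := by
    have hq : (Finset.univ : Finset K).card = 2 ^ finrank (ZMod 2) K := by
      have h1 := Module.card_eq_pow_finrank (K := ZMod 2) (V := K)
      rw [ZMod.card] at h1
      rw [Finset.card_univ, h1]
    by_cases hall : ∀ y, Lf H y + Lf H' y = 0
    · have : Z = Finset.univ := by
        rw [hZ]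
        exact Finset.filter_true_of_mem (fun y _ => hall y)
      rw [this, hq]
      omega
    · push Not at hall
      obtain ⟨y0, hy0⟩ := hall
      have hy0c : Lf H y0 + Lf H' y0 = c := by
        rcases hD y0 with h1 | h1
        · exact absurd h1 hy0
        · exact h1
      have hsub : (Finset.univ : Finset K) ⊆ Z ∪ Z.image (fun y => y + y0) := by
        intro y _
        rw [Finset.mem_union]
        rcases hD y with h1 | h1
        · left
          rw [hZ, Finset.mem_filter]
          exact ⟨Finset.mem_univ _, h1⟩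
        · right
          rw [Finset.mem_image]
          refine ⟨y + y0, ?_, add_add_cancel' _ _⟩
          rw [hZ, Finset.mem_filter]
          refine ⟨Finset.mem_univ _, ?_⟩
          rw [Lf_add, Lf_add]
          have : Lf H y + Lf H y0 + (Lf H' y + Lf H' y0) =
            (Lf H y + Lf H' y) + (Lf H y0 + Lf H' y0) := by ring
          rw [this, h1, hy0c, add_self]
      have h1 := Finset.card_le_card hsub
      rw [hq] at h1
      have h2 := Finset.card_union_le Z (Z.image (fun y => y + y0))
      have h3 : (Z.image (fun y => y + y0)).card ≤ Z.card := Finset.card_image_le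
      omega
  have hfin : finrank (ZMod 2) H + 1 ≤ finrank (ZMod 2) K := by
    have := h.2
    have h2 := Submodule.finrank_le G
    omega
  have hpow : 2 * 2 ^ finrank (ZMod 2) H ≤ 2 ^ finrank (ZMod 2) K := by
    rw [← pow_succ']
    exact Nat.pow_le_pow_right (by norm_num) hfin
  have hPQ : P - Q = 0 := by
    apply Polynomial.eq_zero_of_natDegree_lt_card_of_eval_eq_zero' _ Z
    · intro y hy
      rw [hZ, Finset.mem_filter] at hy
      rw [Polynomial.eval_sub, hP3, hQ3, add_eq_zero_iff'.mp hy.2, sub_self]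
    · by_cases hPQ0 : P - Q = 0
      · rw [hPQ0, Polynomial.natDegree_zero]
        have : 0 < 2 ^ finrank (ZMod 2) K := by positivity
        omega
      · have h1 : (P - Q).natDegree < P.natDegree := by
          apply Polynomial.natDegree_lt_natDegree hPQ0
          apply Polynomial.degree_sub_lt_left
          · rw [Polynomial.degree_eq_natDegree hP1.ne_zero,
              Polynomial.degree_eq_natDegree hQ1.ne_zero, hP2, hQ2, hdeg]
          · exact hP1.ne_zero
          · rw [hP1.leadingCoeff, hQ1.leadingCoeff]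
        rw [hP2] at h1
        omega
  have hfun : ∀ y, Lf H y = Lf H' y := by
    intro y
    rw [← hP3, ← hQ3, sub_eq_zero.mp hPQ]
  ext y
  rw [← Lf_eq_zero, ← Lf_eq_zero, hfun]

end Pool.Agent.Carlet
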