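import Pool.Agent.Carlet.Basic

set_option autoImplicit false
set_option linter.unusedSectionVars false

namespace Pool.Agent.Carlet

open Finset Module

variable {K : Type*} [Field K] [Fintype K] [Algebra (ZMod 2) K]

/-- A real additive character, invariant under Frobenius, with `ψ 1 = -1`. -/
structure Chr (K : Type*) [Field K] where
  f : K → ℝ
  add : ∀ x y, f (x + y) = f x * f y
  frob : ∀ x, f (x ^ 2) = f x
  one : f 1 = -1

namespace Chr

variable (ψ : Chr K)

theorem zero : ψ.f 0 = 1 := by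
  have h := ψ.add 1 0
  rw [add_zero, ψ.one] at h
  linarith

theorem mul_self (x : K) : ψ.f x * ψ.f x = 1 := by
  rw [← ψ.add, add_self, ψ.zero]

theorem cases (x : K) : ψ.f x = 1 ∨ ψ.f x = -1 := by
  have h := ψ.mul_self x
  have h2 : (ψ.f x - 1) * (ψ.f x + 1) = 0 := by linear_combination h
  rcases mul_eq_zero.mp h2 with h3 | h3
  · left; linarith
  · right; linarith

/-- Sum of a character over an additive map. -/
theorem sum_additive (g : K → K) (hg : ∀ x y, g (x + y) = g x + g y) :
    (∑ x, ψ.f (g x) = Fintype.card K ∧ ∀ x, ψ.f (g x) = 1) ∨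
    (∑ x, ψ.f (g x) = 0 ∧ ¬ ∀ x, ψ.f (g x) = 1) := by
  by_cases h : ∀ x, ψ.f (g x) = 1
  · left
    refine ⟨?_, h⟩
    simp [h]
  · right
    refine ⟨?_, h⟩
    push Not at h
    obtain ⟨x0, hx0⟩ := h
    have h1 : ψ.f (g x0) = -1 := by
      rcases ψ.cases (g x0) with h2 | h2
      · exact absurd h2 hx0
      · exact h2
    have h2 : ∑ x, ψ.f (g x) = ∑ x, ψ.f (g (x + x0)) :=
      (Equiv.sum_comp (Equiv.addRight x0) (fun x => ψ.f (g x))).symm
    have h3 : ∑ x, ψ.f (g (x + x0)) = - ∑ x, ψ.f (g x) := by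
      rw [← Finset.sum_neg_distrib]
      apply Finset.sum_congr rfl
      intro x _
      rw [hg, ψ.add, h1]
      ring
    linarith

open Classical in
theorem sum_mul (d : K) : ∑ x, ψ.f (d * x) = if d = 0 then (Fintype.card K : ℝ) else 0 := by
  rcases ψ.sum_additive (fun x => d * x) (fun x y => mul_add d x y) with h | h
  · have hd : d = 0 := by
      by_contra hd
      have := h.2 d⁻¹
      rw [mul_inv_cancel₀ hd, ψ.one] at this
      norm_num at this
    rw [if_pos hd, h.1]
  · have hd : d ≠ 0 := by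
      rintro rfl
      apply h.2
      intro x
      rw [zero_mul, ψ.zero]
    rw [if_neg hd, h.1]

open Classical in
theorem sum_mul' (d : K) : ∑ x, ψ.f (x * d) = if d = 0 then (Fintype.card K : ℝ) else 0 := by
  rw [← ψ.sum_mul d]
  apply Finset.sum_congr rfl
  intro x _
  rw [mul_comm]

/-- Parseval. -/
theorem parseval (e : K → ℝ) :
    ∑ u, (∑ a, e a * ψ.f (u * a)) ^ 2 = Fintype.card K * ∑ a, e a ^ 2 := by
  classical
  have h1 : ∀ u, (∑ a, e a * ψ.f (u * a)) ^ 2 = ∑ a, ∑ b, e a * e b * ψ.f (u * (a + b)) := by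
    intro u
    rw [sq, Finset.sum_mul_sum]
    apply Finset.sum_congr rfl
    intro a _
    apply Finset.sum_congr rfl
    intro b _
    rw [mul_add, ψ.add]
    ring
  calc ∑ u, (∑ a, e a * ψ.f (u * a)) ^ 2 = ∑ u, ∑ a, ∑ b, e a * e b * ψ.f (u * (a + b)) :=
        Finset.sum_congr rfl (fun u _ => h1 u)
    _ = ∑ a, ∑ b, ∑ u, e a * e b * ψ.f (u * (a + b)) := by
        rw [Finset.sum_comm]
        apply Finset.sum_congr rfl
        intro a _
        rw [Finset.sum_comm]
    _ = ∑ a, ∑ b, e a * e b * (if a + b = 0 then (Fintype.card K : ℝ) else 0) := by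
        apply Finset.sum_congr rfl
        intro a _
        apply Finset.sum_congr rfl
        intro b _
        rw [← Finset.mul_sum, ψ.sum_mul']
    _ = ∑ a, e a ^ 2 * Fintype.card K := by
        apply Finset.sum_congr rfl
        intro a _
        rw [Finset.sum_eq_single a]
        · rw [if_pos (add_self a)]
          ring
        · intro b _ hb
          rw [if_neg (fun h => hb (add_eq_zero_iff'.mp h).symm), mul_zero]
        · intro h
          exact absurd (Finset.mem_univ a) h
    _ = Fintype.card K * ∑ a, e a ^ 2 := by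
        rw [Finset.mul_sum]
        apply Finset.sum_congr rfl
        intro a _
        ring

open Classical in
/-- Annihilator of the image of `Lf H`. -/
noncomputable def perp (H : Submodule (ZMod 2) K) : Finset K :=
  Finset.univ.filter (fun d => ∀ x, ψ.f (d * Lf H x) = 1)

theorem mem_perp {H : Submodule (ZMod 2) K} {d : K} :
    d ∈ ψ.perp H ↔ ∀ x, ψ.f (d * Lf H x) = 1 := by
  unfold perp
  simp

open Classical in
theorem card_fiber (H : Submodule (ZMod 2) K) (c : K) :
    ((Finset.univ.filter (fun x => Lf H x = c)).card : ℝ) = ∑ d ∈ ψ.perp H, ψ.f (d * c) := by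
  have hq : (0 : ℝ) < Fintype.card K := by
    exact_mod_cast Fintype.card_pos
  have h1 : ∑ d, ψ.f (d * c) * ∑ x, ψ.f (d * Lf H x) =
      Fintype.card K * ((Finset.univ.filter (fun x => Lf H x = c)).card : ℝ) := by
    calc ∑ d, ψ.f (d * c) * ∑ x, ψ.f (d * Lf H x) = ∑ d, ∑ x, ψ.f (d * (Lf H x + c)) := by
          apply Finset.sum_congr rfl
          intro d _
          rw [Finset.mul_sum]
          apply Finset.sum_congr rfl
          intro x _
          rw [mul_add, ψ.add]
          ring
      _ = ∑ x, ∑ d, ψ.f (d * (Lf H x + c)) := Finset.sum_comm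
      _ = ∑ x, (if Lf H x = c then (Fintype.card K : ℝ) else 0) := by
          apply Finset.sum_congr rfl
          intro x _
          rw [ψ.sum_mul']
          by_cases h : Lf H x = c
          · rw [if_pos h, if_pos (add_eq_zero_iff'.mpr h)]
          · rw [if_neg h, if_neg (fun h2 => h (add_eq_zero_iff'.mp h2))]
      _ = Fintype.card K * ((Finset.univ.filter (fun x => Lf H x = c)).card : ℝ) := by
          rw [← Finset.sum_filter, Finset.sum_const, nsmul_eq_mul]
          ring
  have h2 : ∑ d, ψ.f (d * c) * ∑ x, ψ.f (d * Lf H x) =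
      Fintype.card K * ∑ d ∈ ψ.perp H, ψ.f (d * c) := by
    rw [Finset.mul_sum]
    unfold perp
    rw [Finset.sum_filter]
    apply Finset.sum_congr rfl
    intro d _
    rcases ψ.sum_additive (fun x => d * Lf H x) (fun x y => by rw [Lf_add, mul_add]) with h | h
    · rw [if_pos h.2, h.1]
      ring
    · rw [if_neg h.2, h.1, mul_zero]
  rw [h1] at h2
  exact mul_left_cancel₀ hq.ne' h2

theorem card_perp (H : Submodule (ZMod 2) K) : (ψ.perp H).card = (el H).card := by
  classical
  have h := ψ.card_fiber H 0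
  have h1 : (Finset.univ.filter (fun x => Lf H x = 0)) = el H := by
    ext x
    rw [Finset.mem_filter, mem_el, Lf_eq_zero]
    simp
  rw [h1] at h
  simp only [mul_zero, ψ.zero, Finset.sum_const, nsmul_eq_mul, mul_one] at h
  exact_mod_cast h.symm

theorem zero_mem_perp (H : Submodule (ZMod 2) K) : (0 : K) ∈ ψ.perp H := by
  rw [mem_perp]
  intro x
  rw [zero_mul, ψ.zero]

theorem mem_perp_of_cv {H G : Submodule (ZMod 2) K} (h : Cv H G) :
    (aH H / aH G) ^ 2 ∈ ψ.perp G := by
  rw [mem_perp]
  intro x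
  have h1 := aH_ne_zero H
  have h2 := aH_ne_zero G
  have h3 : (aH H / aH G) ^ 2 * Lf G x = ((aH H / aH G) * Lf H x) ^ 2 + (aH H / aH G) * Lf H x := by
    rw [h.Lf_G x]
    field_simp
  rw [h3, ψ.add, ψ.frob, ψ.mul_self]

end Chr

noncomputable instance : Fintype (Submodule (ZMod 2) K) := Fintype.ofFinite _

open Classical in
noncomputable def Hyp (G : Submodule (ZMod 2) K) : Finset (Submodule (ZMod 2) K) :=
  Finset.univ.filter (fun H => Cv H G)

open Classical in
noncomputable def Up (H : Submodule (ZMod 2) K) : Finset (Submodule (ZMod 2) K) :=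
  Finset.univ.filter (fun G => Cv H G)

theorem mem_Hyp {H G : Submodule (ZMod 2) K} : H ∈ Hyp G ↔ Cv H G := by
  unfold Hyp
  simp

theorem mem_Up {H G : Submodule (ZMod 2) K} : G ∈ Up H ↔ Cv H G := by
  unfold Up
  simp

theorem card_Hyp_ge (G : Submodule (ZMod 2) K) : (el G).card - 1 ≤ (Hyp G).card := by
  classical
  have hfin : Finite (Module.Dual (ZMod 2) G) := Module.finite_of_finite (ZMod 2)
  let _ : Fintype (Module.Dual (ZMod 2) G) := Fintype.ofFinite _
  have h1 : ((Finset.univ : Finset (Module.Dual (ZMod 2) G)).erase 0).card ≤ (Hyp G).card := by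
    apply Finset.card_le_card_of_injOn kerf
    · intro f hf
      rw [Finset.mem_coe, Finset.mem_erase] at hf
      rw [Finset.mem_coe, mem_Hyp]
      exact cv_kerf hf.1
    · exact kerf_injective.injOn
  rw [Finset.card_erase_of_mem (Finset.mem_univ _), Finset.card_univ] at h1
  have h2 := Module.card_eq_pow_finrank (K := ZMod 2) (V := Module.Dual (ZMod 2) G)
  rw [ZMod.card, Subspace.dual_finrank_eq] at h2
  rw [h2, ← card_el] at h1
  exact h1

theorem sq_inj {x y : K} (h : x ^ 2 = y ^ 2) : x = y := by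
  have h1 : (x + y) ^ 2 = 0 := by
    have h2 : x * y + x * y = 0 := add_self _
    have h3 : y ^ 2 + y ^ 2 = 0 := add_self _
    linear_combination h + h2 + h3
  exact add_eq_zero_iff'.mp (pow_eq_zero_iff (two_ne_zero) |>.mp h1)

theorem hyp_injOn (G : Submodule (ZMod 2) K) :
    Set.InjOn (fun H => (aH H / aH G) ^ 2) (Hyp G : Set (Submodule (ZMod 2) K)) := by
  intro H hH H' hH' h
  rw [Finset.mem_coe, mem_Hyp] at hH hH'
  apply hyp_inj hH hH'
  have h1 := sq_inj h
  have h2 := aH_ne_zero G
  field_simp at h1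
  exact h1

open Classical in
theorem hyp_image (ψ : Chr K) (G : Submodule (ZMod 2) K) :
    (Hyp G).image (fun H => (aH H / aH G) ^ 2) = (ψ.perp G).erase 0 := by
  apply Finset.eq_of_subset_of_card_le
  · intro d hd
    rw [Finset.mem_image] at hd
    obtain ⟨H, hH, rfl⟩ := hd
    rw [mem_Hyp] at hH
    rw [Finset.mem_erase]
    exact ⟨pow_ne_zero 2 (div_ne_zero (aH_ne_zero H) (aH_ne_zero G)), ψ.mem_perp_of_cv hH⟩
  · rw [Finset.card_image_of_injOn (hyp_injOn G), Finset.card_erase_of_mem (ψ.zero_mem_perp G),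
      ψ.card_perp]
    exact card_Hyp_ge G

theorem card_Hyp (ψ : Chr K) (G : Submodule (ZMod 2) K) :
    (Hyp G).card = 2 ^ finrank (ZMod 2) G - 1 := by
  classical
  have h := hyp_image ψ G
  have h1 := congrArg Finset.card h
  rw [Finset.card_image_of_injOn (hyp_injOn G), Finset.card_erase_of_mem (ψ.zero_mem_perp G),
      ψ.card_perp, card_el] at h1
  exact h1

/-- Summation over `perp` in terms of hyperplanes. -/
theorem sum_perp (ψ : Chr K) (G : Submodule (ZMod 2) K) (c : K) :
    ∑ d ∈ ψ.perp G, ψ.f (d * c) = 1 + ∑ H ∈ Hyp G, ψ.f ((aH H / aH G) ^ 2 * c) := by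
  classical
  rw [← Finset.add_sum_erase _ _ (ψ.zero_mem_perp G), zero_mul, ψ.zero, ← hyp_image ψ G,
    Finset.sum_image (hyp_injOn G)]

open Classical in
/-- Fibers of the extension map. -/
theorem sum_ext (H : Submodule (ZMod 2) K) (g : Submodule (ZMod 2) K → ℝ) :
    ∑ x ∈ Finset.univ \ el H, g (ext H x) = 2 ^ finrank (ZMod 2) H * ∑ G ∈ Up H, g G := by
  classical
  have hmaps : ∀ x ∈ Finset.univ \ el H, ext H x ∈ Up H := by
    intro x hx
    rw [Finset.mem_sdiff, mem_el] at hx
    rw [mem_Up]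
    exact cv_ext hx.2
  rw [← Finset.sum_fiberwise_of_maps_to hmaps, Finset.mul_sum]
  apply Finset.sum_congr rfl
  intro G hG
  rw [mem_Up] at hG
  have h1 : (Finset.univ \ el H).filter (fun x => ext H x = G) = el G \ el H := by
    ext x
    rw [Finset.mem_filter, Finset.mem_sdiff, Finset.mem_sdiff, mem_el, mem_el]
    constructor
    · rintro ⟨⟨_, h2⟩, h3⟩
      exact ⟨h3 ▸ self_mem_ext H x, h2⟩
    · rintro ⟨h2, h3⟩
      exact ⟨⟨Finset.mem_univ _, h3⟩, (hG.eq_ext h2 h3).symm⟩
  have h2 : ∑ x ∈ (Finset.univ \ el H).filter (fun x => ext H x = G), g (ext H x) =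
      ∑ x ∈ (Finset.univ \ el H).filter (fun x => ext H x = G), g G :=
    Finset.sum_congr rfl (fun x hx => by rw [(Finset.mem_filter.mp hx).2])
  rw [h2, h1, Finset.sum_const, nsmul_eq_mul]
  congr 1
  have hsub : el H ⊆ el G := by
    intro x hx
    rw [mem_el] at hx ⊢
    exact hG.1 hx
  rw [Finset.card_sdiff_of_subset hsub, card_el, card_el, hG.2, pow_succ]
  have : 2 ^ finrank (ZMod 2) H * 2 - 2 ^ finrank (ZMod 2) H = 2 ^ finrank (ZMod 2) H := by omega
  rw [this]
  push_cast
  rfl

end Pool.Agent.Carlet
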