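import Pool.Agent.Carlet.Char

set_option autoImplicit false
set_option linter.unusedSectionVars false

namespace Pool.Agent.Carlet

open Finset Module

variable {K : Type*} [Field K] [Fintype K] [Algebra (ZMod 2) K]

open Classical in
noncomputable def Gr (K : Type*) [Field K] [Fintype K] [Algebra (ZMod 2) K] (j : ℕ) :
    Finset (Submodule (ZMod 2) K) :=
  Finset.univ.filter (fun H => finrank (ZMod 2) H = j)

theorem mem_Gr {j : ℕ} {H : Submodule (ZMod 2) K} : H ∈ Gr K j ↔ finrank (ZMod 2) H = j := by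
  unfold Gr
  simp

open Classical in
noncomputable def NZ (K : Type*) [Field K] [Fintype K] [Algebra (ZMod 2) K] (j : ℕ) :
    Finset (Submodule (ZMod 2) K) :=
  (Gr K j).filter (fun H => SH H = 0)

/-- Number of `j`-dimensional subspaces. -/
noncomputable def Gc (K : Type*) [Field K] [Fintype K] [Algebra (ZMod 2) K] (j : ℕ) : ℝ :=
  ((Gr K j).card : ℝ)

/-- Number of `j`-dimensional subspaces with zero inverse sum. -/
noncomputable def Nc (K : Type*) [Field K] [Fintype K] [Algebra (ZMod 2) K] (j : ℕ) : ℝ :=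
  ((NZ K j).card : ℝ)

noncomputable def qq (K : Type*) [Fintype K] : ℝ := (Fintype.card K : ℝ)

theorem qq_eq : qq K = 2 ^ finrank (ZMod 2) K := by
  unfold qq
  have h1 := Module.card_eq_pow_finrank (K := ZMod 2) (V := K)
  rw [ZMod.card] at h1
  rw [h1]
  push_cast
  rfl

theorem qq_pos : 0 < qq K := by
  unfold qq
  exact_mod_cast Fintype.card_pos

noncomputable def uu (H G : Submodule (ZMod 2) K) : K := aH G * SH H / aH H ^ 2

theorem uu_add_one {H G : Submodule (ZMod 2) K} (h : Cv H G) :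
    uu H G + 1 = aH G * SH G / aH H ^ 2 := by
  unfold uu
  rw [h.SH_G]
  have h1 := aH_ne_zero H
  have h2 := aH_ne_zero G
  field_simp

open Classical in
noncomputable def M (K : Type*) [Field K] [Fintype K] [Algebra (ZMod 2) K] (j : ℕ) (u : K) : ℝ :=
  ∑ H ∈ Gr K j, ∑ G ∈ Up H, (if uu H G = u then (1 : ℝ) else 0)

theorem M_nonneg (j : ℕ) (u : K) : 0 ≤ M K j u :=
  Finset.sum_nonneg (fun H _ => Finset.sum_nonneg (fun G _ => by split_ifs <;> norm_num))

theorem swap_sum (j : ℕ) (f : Submodule (ZMod 2) K → Submodule (ZMod 2) K → ℝ) :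
    ∑ H ∈ Gr K j, ∑ G ∈ Up H, f H G = ∑ G ∈ Gr K (j + 1), ∑ H ∈ Hyp G, f H G := by
  apply Finset.sum_comm'
  intro H G
  rw [mem_Gr, mem_Up, mem_Gr, mem_Hyp]
  constructor
  · rintro ⟨h1, h2⟩
    exact ⟨h2, by rw [h2.2, h1]⟩
  · rintro ⟨h1, h2⟩
    refine ⟨?_, h1⟩
    have := h1.2
    omega

theorem card_Up {j : ℕ} {H : Submodule (ZMod 2) K} (hH : finrank (ZMod 2) H = j) :
    ((Up H).card : ℝ) = qq K / 2 ^ j - 1 := by
  classical
  have h := sum_ext H (fun _ => 1)
  simp only [Finset.sum_const, nsmul_eq_mul, mul_one] at h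
  have h1 : ((Finset.univ \ el H).card : ℝ) = qq K - 2 ^ j := by
    rw [Finset.card_sdiff_of_subset (Finset.subset_univ _), Nat.cast_sub (Finset.card_le_card (Finset.subset_univ _)),
      card_el, hH, Finset.card_univ]
    unfold qq
    push_cast
    rfl
  rw [h1, hH] at h
  have h2 : (0 : ℝ) < 2 ^ j := by positivity
  field_simp
  linarith

theorem Gc_rec (ψ : Chr K) (j : ℕ) :
    Gc K j * (qq K / 2 ^ j - 1) = Gc K (j + 1) * (2 ^ (j + 1) - 1) := by
  have h := swap_sum (K := K) j (fun _ _ => 1)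
  simp only [Finset.sum_const, nsmul_eq_mul, mul_one] at h
  have h1 : ∑ H ∈ Gr K j, ((Up H).card : ℝ) = Gc K j * (qq K / 2 ^ j - 1) := by
    rw [Finset.sum_congr rfl (fun H hH => card_Up (mem_Gr.mp hH)), Finset.sum_const, nsmul_eq_mul]
    rfl
  have h2 : ∑ G ∈ Gr K (j + 1), ((Hyp G).card : ℝ) = Gc K (j + 1) * (2 ^ (j + 1) - 1) := by
    have h3 : ∀ G ∈ Gr K (j + 1), ((Hyp G).card : ℝ) = 2 ^ (j + 1) - 1 := by
      intro G hG
      rw [card_Hyp ψ G, mem_Gr.mp hG, Nat.cast_sub (Nat.one_le_two_pow)]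
      push_cast
      rfl
    rw [Finset.sum_congr rfl h3, Finset.sum_const, nsmul_eq_mul]
    rfl
  rw [← h1, ← h2, h]

theorem M_zero (j : ℕ) : M K j 0 = Nc K j * (qq K / 2 ^ j - 1) := by
  classical
  unfold M Nc NZ
  have h1 : ∀ H ∈ Gr K j, ∑ G ∈ Up H, (if uu H G = 0 then (1 : ℝ) else 0) =
      if SH H = 0 then (qq K / 2 ^ j - 1) else 0 := by
    intro H hH
    by_cases hS : SH H = 0
    · rw [if_pos hS]
      have h2 : ∀ G ∈ Up H, (if uu H G = 0 then (1 : ℝ) else 0) = 1 := by
        intro G _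
        rw [if_pos]
        unfold uu
        rw [hS]
        simp
      rw [Finset.sum_congr rfl h2, Finset.sum_const, nsmul_eq_mul, mul_one,
        card_Up (mem_Gr.mp hH)]
    · rw [if_neg hS]
      apply Finset.sum_eq_zero
      intro G _
      rw [if_neg]
      unfold uu
      exact div_ne_zero (mul_ne_zero (aH_ne_zero G) hS) (pow_ne_zero 2 (aH_ne_zero H))
  rw [Finset.sum_congr rfl h1, ← Finset.sum_filter, Finset.sum_const, nsmul_eq_mul]

theorem uu_eq_one {H G : Submodule (ZMod 2) K} (h : Cv H G) : uu H G = 1 ↔ SH G = 0 := by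
  rw [← add_eq_zero_iff', uu_add_one h, div_eq_zero_iff]
  constructor
  · rintro (h1 | h1)
    · rcases mul_eq_zero.mp h1 with h2 | h2
      · exact absurd h2 (aH_ne_zero G)
      · exact h2
    · exact absurd h1 (pow_ne_zero 2 (aH_ne_zero H))
  · intro h1
    left
    rw [h1, mul_zero]

theorem M_one (ψ : Chr K) (j : ℕ) : M K j 1 = Nc K (j + 1) * (2 ^ (j + 1) - 1) := by
  classical
  unfold M Nc NZ
  rw [swap_sum]
  have h1 : ∀ G ∈ Gr K (j + 1), ∑ H ∈ Hyp G, (if uu H G = 1 then (1 : ℝ) else 0) =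
      if SH G = 0 then ((2 : ℝ) ^ (j + 1) - 1) else 0 := by
    intro G hG
    by_cases hS : SH G = 0
    · rw [if_pos hS]
      have h2 : ∀ H ∈ Hyp G, (if uu H G = 1 then (1 : ℝ) else 0) = 1 := by
        intro H hH
        rw [if_pos ((uu_eq_one (mem_Hyp.mp hH)).mpr hS)]
      rw [Finset.sum_congr rfl h2, Finset.sum_const, nsmul_eq_mul, mul_one,
        card_Hyp ψ G, mem_Gr.mp hG, Nat.cast_sub (Nat.one_le_two_pow)]
      push_cast
      rfl
    · rw [if_neg hS]
      apply Finset.sum_eq_zero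
      intro H hH
      rw [if_neg (fun h => hS ((uu_eq_one (mem_Hyp.mp hH)).mp h))]
  rw [Finset.sum_congr rfl h1, ← Finset.sum_filter, Finset.sum_const, nsmul_eq_mul]

open Classical in
noncomputable def ef (K : Type*) [Field K] [Fintype K] [Algebra (ZMod 2) K] (j : ℕ) (a : K) : ℝ :=
  if a = 0 then 0 else M K j (a⁻¹ + 1)

open Classical in
theorem hat_ef (ψ : Chr K) (j : ℕ) (u : K) :
    ∑ a, ef K j a * ψ.f (u * a) =
      ∑ H ∈ Gr K j, ∑ G ∈ Up H,
        (if SH G = 0 then 0 else ψ.f (u * (aH H ^ 2 / (aH G * SH G)))) := by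
  have h1 : ∀ a, ef K j a * ψ.f (u * a) = ∑ H ∈ Gr K j, ∑ G ∈ Up H,
      (if a ≠ 0 ∧ uu H G = a⁻¹ + 1 then ψ.f (u * a) else 0) := by
    intro a
    unfold ef M
    by_cases ha : a = 0
    · rw [if_pos ha, zero_mul]
      symm
      apply Finset.sum_eq_zero
      intro H _
      apply Finset.sum_eq_zero
      intro G _
      rw [if_neg (fun h => h.1 ha)]
    · rw [if_neg ha, Finset.sum_mul]
      apply Finset.sum_congr rfl
      intro H _
      rw [Finset.sum_mul]
      apply Finset.sum_congr rfl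
      intro G _
      by_cases h2 : uu H G = a⁻¹ + 1
      · rw [if_pos h2, if_pos ⟨ha, h2⟩, one_mul]
      · rw [if_neg h2, if_neg (fun h => h2 h.2), zero_mul]
  rw [Finset.sum_congr rfl (fun a _ => h1 a), Finset.sum_comm]
  apply Finset.sum_congr rfl
  intro H hH
  rw [Finset.sum_comm]
  apply Finset.sum_congr rfl
  intro G hG
  have hc := mem_Up.mp hG
  have ha1 := aH_ne_zero H
  have ha2 := aH_ne_zero G
  by_cases hS : SH G = 0
  · rw [if_pos hS]
    apply Finset.sum_eq_zero
    intro a _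
    rw [if_neg]
    rintro ⟨h2, h3⟩
    have h4 : uu H G = 1 := (uu_eq_one hc).mpr hS
    rw [h4] at h3
    have h5 : a⁻¹ = 0 := by
      have h6 : (1 : K) + 1 = 0 := add_self 1
      linear_combination -h3
    exact inv_ne_zero h2 h5
  · rw [if_neg hS]
    rw [Finset.sum_eq_single (aH H ^ 2 / (aH G * SH G))]
    · rw [if_pos]
      refine ⟨div_ne_zero (pow_ne_zero 2 ha1) (mul_ne_zero ha2 hS), ?_⟩
      rw [inv_div, ← uu_add_one hc, add_assoc, add_self, add_zero]
    · intro b _ hb
      rw [if_neg]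
      rintro ⟨h2, h3⟩
      apply hb
      have h4 : b⁻¹ = aH G * SH G / aH H ^ 2 := by
        rw [← uu_add_one hc, h3, add_assoc, add_self, add_zero]
      rw [← inv_inv b, h4, inv_div]
    · intro h
      exact absurd (Finset.mem_univ _) h

/-- The main recursion. -/
theorem M_rec (ψ : Chr K) (j : ℕ) {u : K} (hu : u ≠ 0) :
    2 ^ (j + 1) * M K (j + 1) u =
      Gc K (j + 1) - Nc K (j + 1) + ∑ a, ef K j a * ψ.f (u * a) := by
  classical
  rw [hat_ef, swap_sum]
  unfold M
  rw [Finset.mul_sum]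
  have hGN : Gc K (j + 1) - Nc K (j + 1) =
      ∑ H ∈ Gr K (j + 1), (if SH H = 0 then (0 : ℝ) else 1) := by
    unfold Gc Nc NZ
    rw [← Finset.card_filter_add_card_filter_not (s := Gr K (j + 1)) (fun H => SH H = 0)]
    rw [Finset.sum_ite, Finset.sum_const_zero, Finset.sum_const, nsmul_eq_mul, mul_one]
    push_cast
    ring
  rw [hGN, ← Finset.sum_add_distrib]
  apply Finset.sum_congr rfl
  intro H hH
  have hHj := mem_Gr.mp hH
  have haH := aH_ne_zero H
  by_cases hS : SH H = 0
  · rw [if_pos hS]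
    have h1 : ∑ G ∈ Up H, (if uu H G = u then (1 : ℝ) else 0) = 0 := by
      apply Finset.sum_eq_zero
      intro G _
      rw [if_neg]
      unfold uu
      rw [hS, mul_zero, zero_div]
      exact fun h => hu h.symm
    rw [h1, mul_zero]
    symm
    rw [zero_add]
    apply Finset.sum_eq_zero
    intro G _
    rw [if_pos hS]
  · rw [if_neg hS]
    set c := u * aH H / SH H with hc
    have hc0 : c ≠ 0 := div_ne_zero (mul_ne_zero hu haH) hS
    have h1 : 2 ^ (j + 1) * ∑ G ∈ Up H, (if uu H G = u then (1 : ℝ) else 0) =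
        ((Finset.univ.filter (fun x => Lf H x = c)).card : ℝ) := by
      rw [← hHj, ← sum_ext H, ← Finset.sum_filter_add_sum_filter_not (Finset.univ \ el H)
        (fun x => Lf H x = c)]
      have h2 : (Finset.univ \ el H).filter (fun x => Lf H x = c) =
          Finset.univ.filter (fun x => Lf H x = c) := by
        ext x
        rw [Finset.mem_filter, Finset.mem_filter, Finset.mem_sdiff, mem_el]
        constructor
        · rintro ⟨_, h3⟩
          exact ⟨Finset.mem_univ _, h3⟩
        · rintro ⟨_, h3⟩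
          refine ⟨⟨Finset.mem_univ _, ?_⟩, h3⟩
          intro h4
          rw [← Lf_eq_zero, h3] at h4
          exact hc0 h4
      have key : ∀ x ∈ Finset.univ \ el H, (uu H (ext H x) = u ↔ Lf H x = c) := by
        intro x hx
        rw [Finset.mem_sdiff, mem_el] at hx
        unfold uu
        rw [aH_ext hx.2, hc]
        constructor
        · intro h3
          field_simp at h3 ⊢
          linear_combination h3
        · intro h3
          rw [h3]
          field_simp
      rw [← h2]
      have h3 : ∑ x ∈ (Finset.univ \ el H).filter (fun x => Lf H x = c),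
          (if uu H (ext H x) = u then (1 : ℝ) else 0) =
          (((Finset.univ \ el H).filter (fun x => Lf H x = c)).card : ℝ) := by
        rw [Finset.card_eq_sum_ones, Nat.cast_sum]
        apply Finset.sum_congr rfl
        intro x hx
        rw [Finset.mem_filter] at hx
        rw [if_pos ((key x hx.1).mpr hx.2)]
        norm_num
      have h4 : ∑ x ∈ (Finset.univ \ el H).filter (fun x => ¬ Lf H x = c),
          (if uu H (ext H x) = u then (1 : ℝ) else 0) = 0 := by
        apply Finset.sum_eq_zero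
        intro x hx
        rw [Finset.mem_filter] at hx
        rw [if_neg (fun h => hx.2 ((key x hx.1).mp h))]
      rw [h3, h4, add_zero]
    rw [h1, ψ.card_fiber H c, sum_perp ψ H c]
    congr 1
    apply Finset.sum_congr rfl
    intro G _
    rw [if_neg hS]
    congr 1
    rw [hc]
    field_simp

theorem Gr_zero : Gr K 0 = {⊥} := by
  ext H
  rw [mem_Gr, Finset.mem_singleton]
  exact Submodule.finrank_eq_zero

theorem SH_bot : SH (⊥ : Submodule (ZMod 2) K) = 0 := by
  unfold SH
  have hel : el (⊥ : Submodule (ZMod 2) K) = {0} := by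
    ext x
    rw [mem_el, Submodule.mem_bot, Finset.mem_singleton]
  rw [hel, Finset.sum_singleton, inv_zero]

theorem Gc_zero : Gc K 0 = 1 := by
  unfold Gc
  rw [Gr_zero]
  simp

theorem Nc_zero : Nc K 0 = 1 := by
  classical
  unfold Nc NZ
  rw [Gr_zero, Finset.filter_true_of_mem]
  · simp
  · intro H hH
    rw [Finset.mem_singleton] at hH
    rw [hH, SH_bot]

theorem M_zero_ne {u : K} (hu : u ≠ 0) : M K 0 u = 0 := by
  classical
  unfold M
  rw [Gr_zero, Finset.sum_singleton]
  apply Finset.sum_eq_zero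
  intro G _
  rw [if_neg]
  unfold uu
  rw [SH_bot, mul_zero, zero_div]
  exact fun h => hu h.symm

end Pool.Agent.Carlet
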