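import Pool.Agent.Carlet.Final

set_option autoImplicit false
set_option linter.unusedSectionVars false

namespace Pool.Agent.Carlet

open Finset Module Polynomial

variable {K : Type*} [Field K] [Fintype K] [Algebra (ZMod 2) K]

/-- The subspace polynomial. -/
noncomputable def Wp (H : Submodule (ZMod 2) K) : K[X] := ∏ v ∈ el H, (X + C v)

theorem Wp_monic (H : Submodule (ZMod 2) K) : (Wp H).Monic :=
  Polynomial.monic_prod_of_monic _ _ (fun v _ => Polynomial.monic_X_add_C v)

theorem Wp_natDegree (H : Submodule (ZMod 2) K) :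
    (Wp H).natDegree = 2 ^ finrank (ZMod 2) H := by
  unfold Wp
  rw [Polynomial.natDegree_prod_of_monic _ _ (fun v _ => Polynomial.monic_X_add_C v)]
  simp only [Polynomial.natDegree_X_add_C, Finset.sum_const, smul_eq_mul, mul_one]
  exact card_el H

theorem Wp_eval (H : Submodule (ZMod 2) K) (x : K) : (Wp H).eval x = Lf H x := by
  unfold Wp Lf
  rw [Polynomial.eval_prod]
  simp

theorem poly_add_self (p : K[X]) : p + p = 0 := by
  have h : (C (1 : K)) + C 1 = 0 := by
    rw [← C_add, add_self, C_0]
  calc p + p = (C (1 : K) + C 1) * p := by rw [C_1]; ring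
    _ = 0 := by rw [h, zero_mul]

theorem Wp_comp_add (j : ℕ) : ∀ H : Submodule (ZMod 2) K, finrank (ZMod 2) H = j →
    ∀ A B : K[X], (Wp H).comp (A + B) = (Wp H).comp A + (Wp H).comp B := by
  classical
  induction j with
  | zero =>
    intro H hH A B
    have hbot : H = ⊥ := Submodule.finrank_eq_zero.mp hH
    have hel : el H = {0} := by
      ext x
      rw [mem_el, hbot, Submodule.mem_bot, Finset.mem_singleton]
    have hW : Wp H = X := by
      unfold Wp
      rw [hel, Finset.prod_singleton, C_0, add_zero]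
    rw [hW, X_comp, X_comp, X_comp]
  | succ j ih =>
    intro G hG A B
    obtain ⟨H, hHG⟩ := exists_hyp (G := G) (by omega)
    obtain ⟨z, hzG, hzH⟩ := hHG.exists_mem
    have hGe := hHG.eq_ext hzG hzH
    have hHj : finrank (ZMod 2) H = j := by
      have := hHG.2
      omega
    have ihH := ih H hHj
    have hW1 : Wp (ext H z) = Wp H * (Wp H).comp (X + C z) := by
      unfold Wp
      rw [el_ext, Finset.prod_union (disj_ext hzH),
        Finset.prod_image (fun a _ b _ h => add_inj z h), Polynomial.prod_comp]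
      congr 1
      apply Finset.prod_congr rfl
      intro v _
      rw [add_comp, X_comp, C_comp, C_add]
      ring
    have hW2 : Wp (ext H z) = Wp H * (Wp H + (Wp H).comp (C z)) := by
      rw [hW1, ihH, comp_X]
    have hcz : ∀ D : K[X], ((Wp H).comp (C z)).comp D = (Wp H).comp (C z) := by
      intro D
      rw [comp_assoc, C_comp]
    rw [hGe, hW2]
    simp only [mul_comp, add_comp, hcz, ihH]
    have h1 := poly_add_self ((Wp H).comp A * (Wp H).comp B)
    linear_combination h1

/-- The composition of the two subspace polynomials. -/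
theorem Wp_comp_Wp (F : Submodule (ZMod 2) K) :
    (Wp (LinearMap.range (LL F))).comp (Wp F) = Wp (⊤ : Submodule (ZMod 2) K) := by
  classical
  set V := LinearMap.range (LL F) with hV
  have hdF := Wp_natDegree F
  have hm1 : ((Wp V).comp (Wp F)).Monic := by
    apply Polynomial.Monic.comp (Wp_monic V) (Wp_monic F)
    rw [hdF]
    positivity
  have hd1 : ((Wp V).comp (Wp F)).natDegree = Fintype.card K := by
    rw [Polynomial.natDegree_comp, Wp_natDegree, Wp_natDegree, ← pow_add, finrank_range_LL,
      Module.card_eq_pow_finrank (K := ZMod 2) (V := K), ZMod.card]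
  have hd2 : (Wp (⊤ : Submodule (ZMod 2) K)).natDegree = Fintype.card K := by
    rw [Wp_natDegree, finrank_top, Module.card_eq_pow_finrank (K := ZMod 2) (V := K), ZMod.card]
  have hm2 := Wp_monic (⊤ : Submodule (ZMod 2) K)
  have hsub : (Wp V).comp (Wp F) - Wp (⊤ : Submodule (ZMod 2) K) = 0 := by
    apply Polynomial.eq_zero_of_natDegree_lt_card_of_eval_eq_zero' _ (Finset.univ : Finset K)
    · intro x _
      rw [eval_sub, eval_comp, Wp_eval, Wp_eval, Wp_eval]
      have h1 : Lf V (Lf F x) = 0 := Lf_eq_zero.mpr ⟨x, rfl⟩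
      have h2 : Lf (⊤ : Submodule (ZMod 2) K) x = 0 := Lf_eq_zero.mpr Submodule.mem_top
      rw [h1, h2, sub_zero]
    · rw [Finset.card_univ]
      have hpos : 0 < Fintype.card K := Fintype.card_pos
      have hlt : ((Wp V).comp (Wp F) - Wp (⊤ : Submodule (ZMod 2) K)).degree <
          ((Wp V).comp (Wp F)).degree := by
        apply Polynomial.degree_sub_lt_left
        · rw [Polynomial.degree_eq_natDegree hm1.ne_zero, Polynomial.degree_eq_natDegree hm2.ne_zero,
            hd1, hd2]
        · exact hm1.ne_zero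
        · rw [hm1.leadingCoeff, hm2.leadingCoeff]
      by_cases h0 : (Wp V).comp (Wp F) - Wp (⊤ : Submodule (ZMod 2) K) = 0
      · rw [h0, natDegree_zero]; exact hpos
      · rw [Polynomial.degree_eq_natDegree h0, Polynomial.degree_eq_natDegree hm1.ne_zero, hd1] at hlt
        exact_mod_cast hlt
  exact sub_eq_zero.mp hsub

theorem range_LL_injective {F F' : Submodule (ZMod 2) K}
    (h : LinearMap.range (LL F) = LinearMap.range (LL F')) : F = F' := by
  classical
  have h1 := Wp_comp_Wp F
  have h2 := Wp_comp_Wp F'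
  rw [← h] at h2
  set V := LinearMap.range (LL F) with hV
  have h3 : (Wp V).comp (Wp F + Wp F') = 0 := by
    rw [Wp_comp_add _ V rfl, h1, h2, poly_add_self]
  have h4 : ∏ v ∈ el V, (Wp F + Wp F' + C v) = 0 := by
    rw [← h3]
    unfold Wp
    rw [Polynomial.prod_comp]
    apply Finset.prod_congr rfl
    intro v _
    rw [add_comp, X_comp, C_comp]
  obtain ⟨v, _, hv⟩ := Finset.prod_eq_zero_iff.mp h4
  have h5 : ∀ x, Lf F x + Lf F' x + v = 0 := by
    intro x
    have := congrArg (Polynomial.eval x) hv
    rw [eval_add, eval_add, eval_C, eval_zero, Wp_eval, Wp_eval] at this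
    exact this
  have hv0 : v = 0 := by
    have h6 := h5 0
    rw [Lf_eq_zero.mpr F.zero_mem, Lf_eq_zero.mpr F'.zero_mem, zero_add, zero_add] at h6
    exact h6
  have h7 : ∀ x, Lf F x = Lf F' x := by
    intro x
    have h6 := h5 x
    rw [hv0, add_zero] at h6
    exact add_eq_zero_iff'.mp h6
  ext x
  rw [← Lf_eq_zero, ← Lf_eq_zero, h7]

theorem SH_range_iff (hq : 3 < Fintype.card K) (F : Submodule (ZMod 2) K) :
    SH F = 0 ↔ SH (LinearMap.range (LL F)) = 0 := by
  have h1 := duality hq F
  constructor
  · intro h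
    rw [h, zero_add] at h1
    rcases mul_eq_zero.mp h1 with h2 | h2
    · exact absurd h2 (aH_ne_zero F)
    · exact h2
  · intro h
    rw [h, mul_zero, add_zero] at h1
    exact h1

theorem Gc_le_dual {k : ℕ} (hk : k ≤ finrank (ZMod 2) K) :
    Gc K k ≤ Gc K (finrank (ZMod 2) K - k) := by
  classical
  unfold Gc
  have : (Gr K k).card ≤ (Gr K (finrank (ZMod 2) K - k)).card := by
    apply Finset.card_le_card_of_injOn (fun F => LinearMap.range (LL F))
    · intro F hF
      rw [Finset.mem_coe, mem_Gr] at hF ⊢
      have := finrank_range_LL F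
      change finrank (ZMod 2) (LinearMap.range (LL F)) = _
      omega
    · intro F _ F' _ h
      exact range_LL_injective h
  exact_mod_cast this

theorem Nc_le_dual (hq : 3 < Fintype.card K) {k : ℕ} (hk : k ≤ finrank (ZMod 2) K) :
    Nc K k ≤ Nc K (finrank (ZMod 2) K - k) := by
  classical
  unfold Nc
  have : (NZ K k).card ≤ (NZ K (finrank (ZMod 2) K - k)).card := by
    apply Finset.card_le_card_of_injOn (fun F => LinearMap.range (LL F))
    · intro F hF
      rw [Finset.mem_coe] at hF ⊢
      unfold NZ at hF ⊢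
      rw [Finset.mem_filter, mem_Gr] at hF ⊢
      have := finrank_range_LL F
      refine ⟨?_, (SH_range_iff hq F).mp hF.2⟩
      change finrank (ZMod 2) (LinearMap.range (LL F)) = _
      omega
    · intro F _ F' _ h
      exact range_LL_injective h
  exact_mod_cast this

theorem Gc_dual {k : ℕ} (hk : k ≤ finrank (ZMod 2) K) :
    Gc K (finrank (ZMod 2) K - k) = Gc K k := by
  apply le_antisymm _ (Gc_le_dual hk)
  have h := Gc_le_dual (K := K) (k := finrank (ZMod 2) K - k) (Nat.sub_le _ _)
  rwa [Nat.sub_sub_self hk] at h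

theorem Nc_dual (hq : 3 < Fintype.card K) {k : ℕ} (hk : k ≤ finrank (ZMod 2) K) :
    Nc K (finrank (ZMod 2) K - k) = Nc K k := by
  apply le_antisymm _ (Nc_le_dual hq hk)
  have h := Nc_le_dual (K := K) hq (k := finrank (ZMod 2) K - k) (Nat.sub_le _ _)
  rwa [Nat.sub_sub_self hk] at h

end Pool.Agent.Carlet
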