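import Pool.Agent.Carlet.Real

set_option autoImplicit false

namespace Pool.Agent.Carlet

namespace Data

variable {n : ℕ} {q : ℝ} {G N Q : ℕ → ℝ} (D : Data n q G N Q)
include D

theorem h31 (hn : 11 ≤ n) : ∀ l, 1 ≤ l → 2 * l + 5 ≤ n → q * Q l ≤ (31 / 10 * G (l + 1)) ^ 2 := by
  intro l hl hln
  have hQ1 := D.Q1_bound hn
  rcases Nat.lt_or_ge l 2 with h4 | h4
  · have : l = 1 := by omega
    subst this
    have : (1 : ℕ) + 1 = 2 := rfl
    rw [this]
    nlinarith [sq_nonneg (G 2)]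
  · have := D.Q_bounds hn l h4 hln
    nlinarith [sq_nonneg (G (l + 1))]

theorem hm_all (hn : 11 ≤ n) {i : ℕ} (hi : 1 ≤ i) (hin : 2 * i + 1 ≤ n) :
    N i * (q / 2 ^ i - 1) ≤ 41 / 10 * G i / 2 ^ i := by
  have hpos : 0 ≤ 41 / 10 * G i / 2 ^ i := by
    have := D.Gnn i
    positivity
  rcases Nat.lt_or_ge i 3 with h3 | h3
  · have : i = 1 ∨ i = 2 := by omega
    rcases this with rfl | rfl
    · rw [D.N1, zero_mul]; exact hpos
    · rw [D.N2, zero_mul]; exact hpos
  · obtain ⟨l, rfl⟩ : ∃ l, i = l + 2 := ⟨i - 2, by omega⟩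
    apply D.m_bound (by omega)
    exact D.h31 hn l (by omega) (by omega)

theorem y_nonneg (j : ℕ) : 0 ≤ (4 : ℝ) ^ j / q := div_nonneg (by positivity) D.qpos.le

theorem Q2_bound (hn : 11 ≤ n) : q * Q 2 ≤ 600 / q * G 3 ^ 2 := by
  have hst := D.Q_step (j := 1) (τ := 91 / 10) (by norm_num) (by omega)
    (D.hm_all hn (le_refl 1) (by omega)) (D.Q1_bound hn)
  have hq : 2048 ≤ q := by
    have := D.pow_le hn
    norm_num at this
    exact this
  have hqp := D.qpos
  refine hst.trans ?_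
  apply mul_le_mul_of_nonneg_right _ (sq_nonneg _)
  have e : 1140 * ((4 : ℝ) ^ 1 / q) ^ 2 + 16 * (91 / 10) * ((4 : ℝ) ^ 1 / q) =
      (18240 / q + 5824 / 10) / q := by
    field_simp
    ring
  rw [e]
  apply div_le_div_of_nonneg_right _ hqp.le
  have : 18240 / q ≤ 18240 / 2048 := div_le_div_of_nonneg_left (by norm_num) (by norm_num) hq
  linarith

theorem Q3_bound (hn : 11 ≤ n) : ∀ j, 3 ≤ j → 2 * j + 5 ≤ n →
    q * Q j ≤ 109 * ((4 : ℝ) ^ j / q) ^ 2 * G (j + 1) ^ 2 := by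
  have hqp := D.qpos
  intro j hj
  induction j, hj using Nat.le_induction with
  | base =>
    intro hjn
    have hst := D.Q_step (j := 2) (τ := 600 / q) (by positivity) (by omega)
      (D.hm_all hn (by norm_num) (by omega)) (D.Q2_bound hn)
    refine hst.trans ?_
    apply mul_le_mul_of_nonneg_right _ (sq_nonneg _)
    have e1 : 1140 * ((4 : ℝ) ^ 2 / q) ^ 2 + 16 * (600 / q) * ((4 : ℝ) ^ 2 / q) = 445440 / q ^ 2 := by
      field_simp
      ring
    have e2 : 109 * ((4 : ℝ) ^ 3 / q) ^ 2 = 446464 / q ^ 2 := by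
      field_simp
      ring
    rw [e1, e2]
    apply div_le_div_of_nonneg_right _ (by positivity)
    norm_num
  | succ j hj3 ih =>
    intro hjn
    have hi7 : 2 * j + 7 ≤ n := by omega
    have hst := D.Q_step (j := j) (τ := 109 * ((4 : ℝ) ^ j / q) ^ 2) (by positivity) hi7
      (D.hm_all hn (by omega) (by omega)) (ih (by omega))
    refine hst.trans ?_
    apply mul_le_mul_of_nonneg_right _ (sq_nonneg _)
    have hy := D.y_le hi7
    have hy0 := D.y_nonneg j
    have e2 : (4 : ℝ) ^ (j + 1) / q = 4 * ((4 : ℝ) ^ j / q) := by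
      rw [pow_succ]; ring
    rw [e2]
    set y := (4 : ℝ) ^ j / q with hydef
    nlinarith [mul_nonneg hy0 hy0, mul_nonneg (mul_nonneg hy0 hy0) hy0,
      mul_nonneg (mul_nonneg hy0 hy0) (sub_nonneg.mpr hy)]

/-- The main error estimate, with a parameter `s` for the `Q` part. -/
theorem core (hn : 11 ≤ n) {j : ℕ} (hj : 2 ≤ j) (hjn : 2 * j + 5 ≤ n) {s : ℝ} (hs : 0 ≤ s)
    (hQ : q * Q j ≤ (s * G (j + 1)) ^ 2) :
    |2 ^ (j + 1) * ((2 ^ (j + 2) - 1) * N (j + 2)) - G (j + 1)| ≤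
      (s + 235 / 100 * ((4 : ℝ) ^ j / q)) * G (j + 1) := by
  obtain ⟨Δ, hΔ, h⟩ := D.Nrec j
  have hG1 := D.Gnn (j + 1)
  have hΔ' : |Δ| ≤ s * G (j + 1) :=
    abs_le_of_sq_le_sq (hΔ.trans hQ) (mul_nonneg hs hG1)
  have hqp := D.qpos
  have hy0 := D.y_nonneg j
  have hratio := D.G_ratio (j := j) (by omega)
  set y := (4 : ℝ) ^ j / q with hydef
  have hX : (4 : ℝ) ^ j = y * q := by rw [hydef]; field_simp
  have hGj : G j ≤ 2 * y * G (j + 1) := by
    rw [hX] at hratio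
    have : q * G j ≤ q * (2 * y * G (j + 1)) := by linarith
    exact le_of_mul_le_mul_left this hqp
  have hN1 : N (j + 1) ≤ 30 / 100 * y * G (j + 1) := by
    obtain ⟨i, rfl⟩ : ∃ i, j = i + 1 := ⟨j - 1, by omega⟩
    have h1 := D.N_bound (j := i) (by omega) (D.h31 hn i (by omega) (by omega))
    have h2 : (4 : ℝ) ≤ 2 ^ (i + 1) := by
      calc (4 : ℝ) = 2 ^ 2 := by norm_num
        _ ≤ 2 ^ (i + 1) := pow_le_pow_right₀ (by norm_num) (by omega)
    have h3 : (8 : ℝ) ≤ 2 ^ (i + 2) := by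
      calc (8 : ℝ) = 2 ^ 3 := by norm_num
        _ ≤ 2 ^ (i + 2) := pow_le_pow_right₀ (by norm_num) (by omega)
    have h4 := D.Nnn (i + 2)
    have h5 : 4 * (7 * N (i + 2)) ≤ 2 ^ (i + 1) * ((2 ^ (i + 2) - 1) * N (i + 2)) := by
      apply mul_le_mul h2 _ (by positivity) (by positivity)
      apply mul_le_mul_of_nonneg_right _ h4
      linarith
    have e1 : i + 1 + 1 = i + 2 := rfl
    rw [e1] at hGj ⊢ hG1
    nlinarith [mul_nonneg hy0 hG1]
  have hm : N j * (q / 2 ^ j - 1) ≤ 205 / 100 * y * G (j + 1) := by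
    have h1 := D.hm_all hn (i := j) (by omega) (by omega)
    have h2 : (4 : ℝ) ≤ 2 ^ j := by
      calc (4 : ℝ) = 2 ^ 2 := by norm_num
        _ ≤ 2 ^ j := pow_le_pow_right₀ (by norm_num) hj
    have h4 := D.Gnn j
    have h5 : 41 / 10 * G j / 2 ^ j ≤ 41 / 10 * G j / 4 := by
      apply div_le_div_of_nonneg_left (by positivity) (by norm_num) h2
    linarith
  have hN0 := D.Nnn (j + 1)
  have hm0 := D.m_nonneg (j := j) (by omega)
  have e1 := le_abs_self Δ
  have e2 := neg_abs_le Δ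
  rw [h, abs_le]
  constructor
  · nlinarith
  · nlinarith [mul_nonneg hy0 hG1]

theorem G_pos {i : ℕ} (hi : i ≤ n) : 0 < G i := by
  induction i with
  | zero => rw [D.G0]; norm_num
  | succ i ihi =>
    have h1 := ihi (by omega)
    have h2 := D.Grec i
    have h3 : 1 < q / 2 ^ i := by
      rw [lt_div_iff₀ (by positivity), one_mul, D.hq]
      exact pow_lt_pow_right₀ (by norm_num) (by omega)
    have h4 : 0 < G i * (q / 2 ^ i - 1) := mul_pos h1 (by linarith)
    rw [h2] at h4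
    have h5 : (1 : ℝ) < 2 ^ (i + 1) := one_lt_pow₀ (by norm_num) (by omega)
    exact (mul_pos_iff_of_pos_right (by linarith)).mp h4

/-- From the normalised error to the ratio `N q / G`. -/
theorem ratio_of_core {j : ℕ} (hj : 2 ≤ j) (hjn : 2 * j + 5 ≤ n) {t : ℝ} (ht : 0 ≤ t)
    (h : |2 ^ (j + 1) * ((2 ^ (j + 2) - 1) * N (j + 2)) - G (j + 1)| ≤ t * G (j + 1)) :
    |N (j + 2) * q / G (j + 2) - 1| ≤ 64 / 63 * t + 51 / 100 * ((4 : ℝ) ^ j / q) := by
  have hqp := D.qpos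
  have hG1 := D.G_pos (i := j + 1) (by omega)
  have hG2 := D.G_pos (i := j + 2) (by omega)
  have hrec := D.Grec (j + 1)
  have e1 : j + 1 + 1 = j + 2 := rfl
  rw [e1] at hrec
  have hy0 := D.y_nonneg j
  set y := (4 : ℝ) ^ j / q with hydef
  have hyX : (4 : ℝ) ^ j = y * q := by rw [hydef]; field_simp
  set B := (2 : ℝ) ^ (j + 1) with hB
  have hBpos : 0 < B := by positivity
  have hB8 : 8 ≤ B := by
    rw [hB]
    calc (8 : ℝ) = 2 ^ 3 := by norm_num
      _ ≤ 2 ^ (j + 1) := pow_le_pow_right₀ (by norm_num) (by omega)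
  have hA : (2 : ℝ) ^ (j + 2) = 2 * B := by rw [hB, pow_succ]; ring
  have hB2 : B ^ 2 = 4 * (4 : ℝ) ^ j := by
    rw [hB, ← pow_mul, show (j + 1) * 2 = 2 * j + 2 by ring, pow_add, pow_mul]
    norm_num
    ring
  -- B ≤ q / 64
  have hBq : 64 * B ≤ q := by
    rw [hB, D.hq]
    calc (64 : ℝ) * 2 ^ (j + 1) = 2 ^ (j + 7) := by
          rw [show j + 7 = (j + 1) + 6 by ring, pow_add (2 : ℝ) (j + 1) 6]; norm_num; ring
      _ ≤ 2 ^ n := pow_le_pow_right₀ (by norm_num) (by omega)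
  -- B ≤ y q / 2
  have hBy : 2 * B ≤ y * q := by
    have : 8 * B ≤ B ^ 2 := by nlinarith
    rw [hB2, hyX] at this
    linarith
  rw [hA] at h hrec
  have hqB : 0 < q - B := by linarith
  have hrec' : G (j + 1) * (q - B) = G (j + 2) * (B * (2 * B - 1)) := by
    have : (q / B - 1) * B = q - B := by field_simp
    calc G (j + 1) * (q - B) = (G (j + 1) * (q / B - 1)) * B := by rw [← this]; ring
      _ = G (j + 2) * (B * (2 * B - 1)) := by rw [hrec]; ring
  set E := B * ((2 * B - 1) * N (j + 2)) - G (j + 1) with hE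
  have hkey : N (j + 2) * q / G (j + 2) - 1 =
      (E / G (j + 1)) * (q / (q - B)) + B / (q - B) := by
    have h2B : 2 * B - 1 ≠ 0 := by
      have : 0 < 2 * B - 1 := by linarith
      exact this.ne'
    have hBne : B ≠ 0 := hBpos.ne'
    have hqBne : q - B ≠ 0 := hqB.ne'
    have hG1ne : G (j + 1) ≠ 0 := hG1.ne'
    have hBB : B * (2 * B - 1) ≠ 0 := mul_ne_zero hBne h2B
    have hN : N (j + 2) = (E + G (j + 1)) / (B * (2 * B - 1)) := by
      rw [eq_div_iff hBB, hE]; ring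
    have hG2' : G (j + 2) = G (j + 1) * (q - B) / (B * (2 * B - 1)) := by
      rw [eq_div_iff hBB, hrec']
    rw [hN, hG2', div_mul_eq_mul_div, div_div_div_cancel_right₀ hBB, div_mul_div_comm,
      div_add_div _ _ (mul_ne_zero hG1ne hqBne) hqBne, eq_div_iff (mul_ne_zero
        (mul_ne_zero hG1ne hqBne) hqBne), sub_mul, div_mul_eq_mul_div, one_mul]
    rw [sub_eq_iff_eq_add, div_eq_iff (mul_ne_zero hG1ne hqBne)]
    ring
  rw [hkey]
  have hEG : |E / G (j + 1)| ≤ t := by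
    rw [abs_div, abs_of_pos hG1, div_le_iff₀ hG1]
    exact h
  have h1 : q / (q - B) ≤ 64 / 63 := by
    rw [div_le_div_iff₀ hqB (by norm_num)]
    linarith
  have h1' : 0 ≤ q / (q - B) := by positivity
  have h2 : B / (q - B) ≤ 51 / 100 * y := by
    rw [div_le_iff₀ hqB]
    nlinarith
  have h2' : 0 ≤ B / (q - B) := by positivity
  calc |(E / G (j + 1)) * (q / (q - B)) + B / (q - B)|
      ≤ |(E / G (j + 1)) * (q / (q - B))| + |B / (q - B)| := abs_add_le _ _
    _ = |E / G (j + 1)| * (q / (q - B)) + B / (q - B) := by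
        rw [abs_mul, abs_of_nonneg h1', abs_of_nonneg h2']
    _ ≤ t * (64 / 63) + 51 / 100 * y := by
        apply add_le_add _ h2
        exact mul_le_mul hEG h1 h1' ht
    _ = _ := by ring

/-- Asymptotic form. -/
theorem asymp (hn : 11 ≤ n) {k : ℕ} (hk : 4 ≤ k) (hkn : 2 * k + 1 ≤ n) {w : ℝ} (hw0 : 0 ≤ w)
    (hw : q * w ^ 4 = 1) :
    |N k * q / G k - 1| ≤ 4 * w + (4 : ℝ) ^ k / q := by
  obtain ⟨j, rfl⟩ : ∃ j, k = j + 2 := ⟨k - 2, by omega⟩
  have hqp := D.qpos
  have hy0 := D.y_nonneg j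
  have hG1 := D.Gnn (j + 1)
  have hq : 2048 ≤ q := by
    have := D.pow_le hn
    norm_num at this
    exact this
  have hw015 : w ≤ 15 / 100 := by
    by_contra hcon
    push Not at hcon
    have h1 : (15 / 100 : ℝ) ^ 4 < w ^ 4 := pow_lt_pow_left₀ hcon (by norm_num) (by norm_num)
    have h2 : 2048 * w ^ 4 ≤ 1 := by
      rw [← hw]
      exact mul_le_mul_of_nonneg_right hq (by positivity)
    norm_num at h1
    linarith
  have hqinv : 1 / q = w ^ 4 := by
    rw [div_eq_iff hqp.ne', ← hw]; ring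
  have hX : (4 : ℝ) ^ (j + 2) / q = 16 * ((4 : ℝ) ^ j / q) := by
    rw [pow_add]; ring
  rw [hX]
  set y := (4 : ℝ) ^ j / q with hydef
  have hs : q * Q j ≤ ((245 / 10 * w ^ 2 + 1045 / 100 * y) * G (j + 1)) ^ 2 := by
    rcases Nat.lt_or_ge j 3 with h3 | h3
    · have : j = 2 := by omega
      subst this
      have h1 := D.Q2_bound hn
      have e : (600 : ℝ) / q = 600 * w ^ 4 := by rw [← hqinv]; ring
      rw [e] at h1
      refine h1.trans ?_
      rw [mul_pow]
      apply mul_le_mul_of_nonneg_right _ (sq_nonneg _)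
      nlinarith [mul_nonneg hy0 (sq_nonneg w), mul_nonneg hy0 hy0, sq_nonneg (w ^ 2)]
    · have h1 := D.Q3_bound hn j h3 (by omega)
      refine h1.trans ?_
      rw [mul_pow]
      apply mul_le_mul_of_nonneg_right _ (sq_nonneg _)
      nlinarith [mul_nonneg hy0 (sq_nonneg w), mul_nonneg hy0 hy0, sq_nonneg (w ^ 2)]
  have hc := D.core hn (by omega) (by omega) (s := 245 / 10 * w ^ 2 + 1045 / 100 * y)
    (by positivity) hs
  have hr := D.ratio_of_core (by omega) (by omega)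
    (t := 245 / 10 * w ^ 2 + 1045 / 100 * y + 235 / 100 * y) (by positivity) hc
  refine hr.trans ?_
  nlinarith [mul_nonneg hw0 (sub_nonneg.mpr hw015)]

/-- Explicit form. -/
theorem explicit (hn : 11 ≤ n) {k : ℕ} (hk : 4 ≤ k) (hkn : 2 * k + 1 ≤ n) :
    |N k * q / G k - 1| ≤ 2 / 3 := by
  obtain ⟨j, rfl⟩ : ∃ j, k = j + 2 := ⟨k - 2, by omega⟩
  have hqp := D.qpos
  have hy0 := D.y_nonneg j
  have hQ := D.Q_bounds hn j (by omega) (by omega)
  have hy : (4 : ℝ) ^ j / q ≤ 1 / 32 := by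
    rw [div_le_div_iff₀ hqp (by norm_num), one_mul, D.hq]
    calc (4 : ℝ) ^ j * 32 = 2 ^ (2 * j + 5) := by
          rw [pow_add, pow_mul]; norm_num
      _ ≤ 2 ^ n := pow_le_pow_right₀ (by norm_num) (by omega)
  have hs : q * Q j ≤ (55 / 100 * G (j + 1)) ^ 2 := by
    nlinarith [sq_nonneg (G (j + 1))]
  have hc := D.core hn (by omega) (by omega) (s := 55 / 100) (by norm_num) hs
  have hr := D.ratio_of_core (by omega) (by omega)
    (t := 55 / 100 + 235 / 100 * ((4 : ℝ) ^ j / q)) (by positivity) hc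
  refine hr.trans ?_
  linarith

end Data

end Pool.Agent.Carlet
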