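import Mathlib

set_option autoImplicit false

namespace Pool.Agent.Carlet

/-- The data extracted from counting. -/
structure Data (n : ℕ) (q : ℝ) (G N Q : ℕ → ℝ) : Prop where
  hq : q = 2 ^ n
  G0 : G 0 = 1
  Grec : ∀ j, G j * (q / 2 ^ j - 1) = G (j + 1) * (2 ^ (j + 1) - 1)
  Gnn : ∀ j, 0 ≤ G j
  Nnn : ∀ j, 0 ≤ N j
  Nle : ∀ j, N j ≤ G j
  N1 : N 1 = 0
  N2 : N 2 = 0
  Qnn : ∀ j, 0 ≤ Q j
  Q1 : Q 1 = (q - 1) ^ 3 / 4
  Qrec : ∀ j, 4 ^ (j + 1) * Q (j + 1) ≤
    q * (((G j - N j) / 2 ^ j) ^ 2 + (N j * (q / 2 ^ j - 1) - (G j - N j) / 2 ^ j) ^ 2 + Q j)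
  Nrec : ∀ j, ∃ Δ : ℝ, Δ ^ 2 ≤ q * Q j ∧
    2 ^ (j + 1) * ((2 ^ (j + 2) - 1) * N (j + 2)) =
      G (j + 1) - N (j + 1) - N j * (q / 2 ^ j - 1) + Δ

namespace Data

variable {n : ℕ} {q : ℝ} {G N Q : ℕ → ℝ} (D : Data n q G N Q)
include D

theorem qpos : 0 < q := by rw [D.hq]; positivity

theorem pow_le {j : ℕ} (hj : j ≤ n) : (2 : ℝ) ^ j ≤ q := by
  rw [D.hq]
  exact pow_le_pow_right₀ (by norm_num) hj

theorem b_ge {j : ℕ} (hj : j ≤ n) : 1 ≤ q / 2 ^ j := by
  rw [le_div_iff₀ (by positivity), one_mul]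
  exact D.pow_le hj

theorem G_ratio {j : ℕ} (hj : 2 * j + 1 ≤ n) : q * G j ≤ 2 * 4 ^ j * G (j + 1) := by
  have h1 := D.Grec j
  set b := q / 2 ^ j with hb
  set a := (2 : ℝ) ^ (j + 1) with ha
  have h2j : (0 : ℝ) < 2 ^ j := by positivity
  have hqb : q = 2 ^ j * b := by rw [hb]; field_simp
  have h4j : (2 : ℝ) * 4 ^ j = 2 ^ j * a := by
    rw [ha, pow_succ, show (4 : ℝ) = 2 * 2 by norm_num, mul_pow]
    ring
  have hab : a ≤ b := by
    rw [hb, le_div_iff₀ h2j, ha, ← pow_add]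
    exact D.pow_le (by omega)
  have ha1 : 1 < a := by
    rw [ha]
    exact one_lt_pow₀ (by norm_num) (by omega)
  have hG := D.Gnn j
  have hG' := D.Gnn (j + 1)
  have h3 : b * G j ≤ a * G (j + 1) := by
    have h4 : 0 ≤ (a - 1) * (a * G (j + 1) - b * G j) := by
      have : (a - 1) * (a * G (j + 1) - b * G j) = G j * (b - a) := by
        linear_combination (-a) * h1
      rw [this]
      exact mul_nonneg hG (by linarith)
    have h5 := nonneg_of_mul_nonneg_right h4 (by linarith)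
    linarith
  rw [hqb, h4j]
  nlinarith

theorem m_nonneg {j : ℕ} (hj : j ≤ n) : 0 ≤ N j * (q / 2 ^ j - 1) :=
  mul_nonneg (D.Nnn j) (by have := D.b_ge hj; linarith)

theorem N_bound {j : ℕ} (hj : j ≤ n) (hQ : q * Q j ≤ (31 / 10 * G (j + 1)) ^ 2) :
    2 ^ (j + 1) * ((2 ^ (j + 2) - 1) * N (j + 2)) ≤ 41 / 10 * G (j + 1) := by
  obtain ⟨Δ, hΔ, h⟩ := D.Nrec j
  have h1 : |Δ| ≤ 31 / 10 * G (j + 1) := by
    have h0 : (0 : ℝ) ≤ 31 / 10 * G (j + 1) := by have := D.Gnn (j + 1); positivity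
    exact abs_le_of_sq_le_sq (by linarith) h0
  have h2 := D.m_nonneg hj
  have h3 := D.Nnn (j + 1)
  have h4 := le_abs_self Δ
  linarith

theorem m_bound {j : ℕ} (hj : j + 2 ≤ n) (hQ : q * Q j ≤ (31 / 10 * G (j + 1)) ^ 2) :
    N (j + 2) * (q / 2 ^ (j + 2) - 1) ≤ 41 / 10 * G (j + 2) / 2 ^ (j + 2) := by
  have h1 := D.N_bound (by omega) hQ
  have h2 := D.Grec (j + 1)
  have e1 : j + 1 + 1 = j + 2 := rfl
  rw [e1] at h2
  set A := (2 : ℝ) ^ (j + 2) with hA
  have hA1 : (2 : ℝ) ^ (j + 1) = A / 2 := by rw [hA, pow_succ]; ring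
  rw [hA1] at h1 h2
  have hApos : 0 < A := by positivity
  have hA4 : 4 ≤ A := by
    rw [hA]
    calc (4 : ℝ) = 2 ^ 2 := by norm_num
      _ ≤ 2 ^ (j + 2) := pow_le_pow_right₀ (by norm_num) (by omega)
  set x := q / (A / 2) with hx
  have hxA : q / A = x / 2 := by rw [hx]; field_simp
  have hx2 : 2 ≤ x := by
    have := D.b_ge hj
    rw [← hA, hxA] at this
    linarith
  rw [hxA, le_div_iff₀ hApos]
  have hN := D.Nnn (j + 2)
  have h3 : (A / 2) * N (j + 2) * (x - 1) ≤ 41 / 10 * G (j + 2) := by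
    have h4 : (A - 1) * ((A / 2) * N (j + 2) * (x - 1)) ≤ (A - 1) * (41 / 10 * G (j + 2)) := by
      calc (A - 1) * ((A / 2) * N (j + 2) * (x - 1)) =
          (A / 2 * ((A - 1) * N (j + 2))) * (x - 1) := by ring
        _ ≤ (41 / 10 * G (j + 1)) * (x - 1) := by
            apply mul_le_mul_of_nonneg_right h1
            linarith
        _ = 41 / 10 * (G (j + 1) * (x - 1)) := by ring
        _ = (A - 1) * (41 / 10 * G (j + 2)) := by rw [h2]; ring
    exact le_of_mul_le_mul_left h4 (by linarith)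
  have h5 : 0 ≤ A * N (j + 2) := by positivity
  nlinarith

/-- Induction step for `Q`. -/
theorem Q_step {j : ℕ} {τ : ℝ} (hτ : 0 ≤ τ) (hj : 2 * j + 7 ≤ n)
    (hm : N j * (q / 2 ^ j - 1) ≤ 41 / 10 * G j / 2 ^ j)
    (hQ : q * Q j ≤ τ * G (j + 1) ^ 2) :
    q * Q (j + 1) ≤ (1140 * (4 ^ j / q) ^ 2 + 16 * τ * (4 ^ j / q)) * G (j + 2) ^ 2 := by
  have hqp := D.qpos
  have hG0 := D.Gnn j
  have hG1 := D.Gnn (j + 1)
  have hG2 := D.Gnn (j + 2)
  have hr1 := D.G_ratio (j := j) (by omega)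
  have hr2 := D.G_ratio (j := j + 1) (by omega)
  have hrec := D.Qrec j
  set m := N j * (q / 2 ^ j - 1) with hmdef
  have hm0 : 0 ≤ m := D.m_nonneg (by omega)
  set c := (G j - N j) / 2 ^ j with hc
  have h2j : (0 : ℝ) < 2 ^ j := by positivity
  have hc0 : 0 ≤ c := div_nonneg (by have := D.Nle j; linarith) h2j.le
  have hcle : c ≤ G j / 2 ^ j := by
    rw [hc]
    apply div_le_div_of_nonneg_right _ h2j.le
    have := D.Nnn j
    linarith
  set g := G j / 2 ^ j with hg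
  have hg0 : 0 ≤ g := div_nonneg hG0 h2j.le
  have hm' : m ≤ 41 / 10 * g := by
    rw [hg]
    calc m ≤ 41 / 10 * G j / 2 ^ j := hm
      _ = _ := by ring
  have hsum : c ^ 2 + (m - c) ^ 2 ≤ 1781 / 100 * g ^ 2 := by
    have h1 : c ^ 2 ≤ g ^ 2 := pow_le_pow_left₀ hc0 hcle 2
    have h2 : (m - c) ^ 2 ≤ (41 / 10 * g) ^ 2 := by
      apply sq_le_sq'
      · linarith
      · linarith
    nlinarith
  set X := (4 : ℝ) ^ j with hX
  have hXpos : 0 < X := by positivity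
  have hg2 : g ^ 2 = G j ^ 2 / X := by
    rw [hg, div_pow, hX, ← pow_mul, mul_comm j 2, pow_mul]
    norm_num
  set y := X / q with hy
  have hypos : 0 < y := div_pos hXpos hqp
  have hXq : X = y * q := by rw [hy]; field_simp
  have hGj : G j ≤ 2 * y * G (j + 1) := by
    have : q * G j ≤ q * (2 * y * G (j + 1)) := by
      calc q * G j ≤ 2 * X * G (j + 1) := hr1
        _ = q * (2 * y * G (j + 1)) := by rw [hXq]; ring
    exact le_of_mul_le_mul_left this hqp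
  have hGj1 : G (j + 1) ≤ 8 * y * G (j + 2) := by
    have h3 : (4 : ℝ) ^ (j + 1) = 4 * X := by rw [hX, pow_succ]; ring
    rw [h3] at hr2
    have : q * G (j + 1) ≤ q * (8 * y * G (j + 2)) := by
      calc q * G (j + 1) ≤ 2 * (4 * X) * G (j + 1 + 1) := hr2
        _ = q * (8 * y * G (j + 2)) := by rw [hXq]; ring
    exact le_of_mul_le_mul_left this hqp
  have h4 : 4 * X * (q * Q (j + 1)) ≤
      q * (q * (1781 / 100 * (G j ^ 2 / X)) + τ * G (j + 1) ^ 2) := by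
    have h5 : (4 : ℝ) ^ (j + 1) = 4 * X := by rw [hX, pow_succ]; ring
    rw [h5] at hrec
    calc 4 * X * (q * Q (j + 1)) = q * (4 * X * Q (j + 1)) := by ring
      _ ≤ q * (q * (c ^ 2 + (m - c) ^ 2 + Q j)) := mul_le_mul_of_nonneg_left hrec hqp.le
      _ ≤ q * (q * (1781 / 100 * g ^ 2) + q * Q j) := by
          apply mul_le_mul_of_nonneg_left _ hqp.le
          nlinarith
      _ ≤ q * (q * (1781 / 100 * (G j ^ 2 / X)) + τ * G (j + 1) ^ 2) := by
          rw [← hg2]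
          apply mul_le_mul_of_nonneg_left _ hqp.le
          linarith
  have h6 : G j ^ 2 ≤ 4 * y ^ 2 * G (j + 1) ^ 2 := by
    calc G j ^ 2 ≤ (2 * y * G (j + 1)) ^ 2 := pow_le_pow_left₀ hG0 hGj 2
      _ = _ := by ring
  have h7 : G (j + 1) ^ 2 ≤ 64 * y ^ 2 * G (j + 2) ^ 2 := by
    calc G (j + 1) ^ 2 ≤ (8 * y * G (j + 2)) ^ 2 := pow_le_pow_left₀ hG1 hGj1 2
      _ = _ := by ring
  -- q * (G j ^ 2 / X) ≤ 4 * y * G (j+1)^2
  have h8 : q * (G j ^ 2 / X) ≤ 4 * y * G (j + 1) ^ 2 := by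
    have : q * (G j ^ 2 / X) = G j ^ 2 / y := by
      rw [hy]; field_simp
    rw [this, div_le_iff₀ hypos]
    calc G j ^ 2 ≤ 4 * y ^ 2 * G (j + 1) ^ 2 := h6
      _ = 4 * y * G (j + 1) ^ 2 * y := by ring
  have h9 : 4 * y * (q * Q (j + 1)) ≤ (7124 / 100 * y + τ) * G (j + 1) ^ 2 := by
    have h10 : q * (4 * y * (q * Q (j + 1))) ≤ q * ((7124 / 100 * y + τ) * G (j + 1) ^ 2) := by
      calc q * (4 * y * (q * Q (j + 1))) = 4 * X * (q * Q (j + 1)) := by rw [hXq]; ring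
        _ ≤ q * (q * (1781 / 100 * (G j ^ 2 / X)) + τ * G (j + 1) ^ 2) := h4
        _ ≤ q * ((7124 / 100 * y + τ) * G (j + 1) ^ 2) := by
          apply mul_le_mul_of_nonneg_left _ hqp.le
          nlinarith
    exact le_of_mul_le_mul_left h10 hqp
  have h11 : 4 * y * (q * Q (j + 1)) ≤
      4 * y * ((1140 * y ^ 2 + 16 * τ * y) * G (j + 2) ^ 2) := by
    calc 4 * y * (q * Q (j + 1)) ≤ (7124 / 100 * y + τ) * G (j + 1) ^ 2 := h9
      _ ≤ (7124 / 100 * y + τ) * (64 * y ^ 2 * G (j + 2) ^ 2) := by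
          apply mul_le_mul_of_nonneg_left h7
          positivity
      _ = (7124 * 64 / 100 * y ^ 3 + 64 * τ * y ^ 2) * G (j + 2) ^ 2 := by ring
      _ ≤ (4560 * y ^ 3 + 64 * τ * y ^ 2) * G (j + 2) ^ 2 := by
          apply mul_le_mul_of_nonneg_right _ (sq_nonneg _)
          have : 0 < y ^ 3 := by positivity
          linarith
      _ = 4 * y * ((1140 * y ^ 2 + 16 * τ * y) * G (j + 2) ^ 2) := by ring
  exact le_of_mul_le_mul_left h11 (by positivity)

theorem y_le {j : ℕ} (hj : 2 * j + 7 ≤ n) : (4 : ℝ) ^ j / q ≤ 1 / 128 := by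
  rw [div_le_div_iff₀ D.qpos (by norm_num), one_mul, D.hq]
  calc (4 : ℝ) ^ j * 128 = 2 ^ (2 * j + 7) := by
        rw [pow_add, pow_mul]; norm_num
    _ ≤ 2 ^ n := pow_le_pow_right₀ (by norm_num) hj

theorem G1 : G 1 = q - 1 := by
  have h := D.Grec 0
  rw [D.G0] at h
  norm_num at h
  linarith

theorem G2 : G 2 = (q - 1) * (q - 2) / 6 := by
  have h := D.Grec 1
  rw [D.G1] at h
  norm_num at h
  linarith

theorem G3 : G 3 = (q - 1) * (q - 2) * (q - 4) / 168 := by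
  have h := D.Grec 2
  rw [D.G2] at h
  norm_num at h
  linarith

theorem Q1_bound (hn : 11 ≤ n) : q * Q 1 ≤ 91 / 10 * G 2 ^ 2 := by
  rw [D.Q1, D.G2]
  have hq : 2048 ≤ q := by
    have := D.pow_le hn
    norm_num at this
    exact this
  have h1 : 0 < q - 1 := by linarith
  have h2 : 9 * q * (q - 1) ≤ 91 / 10 * (q - 2) ^ 2 := by nlinarith
  have h3 : 0 ≤ (q - 1) ^ 2 / 36 := by positivity
  have h4 := mul_le_mul_of_nonneg_left h2 h3
  nlinarith

theorem Q_bounds (hn : 11 ≤ n) : ∀ j, 2 ≤ j → 2 * j + 5 ≤ n → q * Q j ≤ 3 / 10 * G (j + 1) ^ 2 := by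
  have hQ1 := D.Q1_bound hn
  have h31 : ∀ j, 1 ≤ j → (j = 1 ∨ q * Q j ≤ 3 / 10 * G (j + 1) ^ 2) →
      q * Q j ≤ (31 / 10 * G (j + 1)) ^ 2 := by
    intro j hj h
    rcases h with rfl | h
    · have : (1 : ℕ) + 1 = 2 := rfl
      rw [this]
      nlinarith [sq_nonneg (G 2)]
    · nlinarith [sq_nonneg (G (j + 1))]
  intro j
  induction j using Nat.strong_induction_on with
  | _ j ih =>
    intro hj2 hjn
    obtain ⟨i, rfl⟩ : ∃ i, j = i + 1 := ⟨j - 1, by omega⟩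
    -- step from i to i+1
    have hi7 : 2 * i + 7 ≤ n := by omega
    have hmi : N i * (q / 2 ^ i - 1) ≤ 41 / 10 * G i / 2 ^ i := by
      have hpos : 0 ≤ 41 / 10 * G i / 2 ^ i := by
        have := D.Gnn i
        positivity
      rcases Nat.lt_or_ge i 3 with h3 | h3
      · have : i = 1 ∨ i = 2 := by omega
        rcases this with rfl | rfl
        · rw [D.N1, zero_mul]; exact hpos
        · rw [D.N2, zero_mul]; exact hpos
      · obtain ⟨l, rfl⟩ : ∃ l, i = l + 2 := ⟨i - 2, by omega⟩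
        apply D.m_bound (by omega)
        apply h31 l (by omega)
        rcases Nat.lt_or_ge l 2 with h4 | h4
        · left; omega
        · right
          exact ih l (by omega) h4 (by omega)
    have hy := D.y_le hi7
    have hypos : 0 < (4 : ℝ) ^ i / q := div_pos (by positivity) D.qpos
    rcases Nat.lt_or_ge i 2 with h2 | h2
    · have hi1 : i = 1 := by omega
      subst hi1
      have hst := D.Q_step (j := 1) (τ := 91 / 10) (by norm_num) hi7 hmi hQ1
      refine hst.trans ?_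
      apply mul_le_mul_of_nonneg_right _ (sq_nonneg _)
      have hy2 : (4 : ℝ) ^ 1 / q ≤ 1 / 512 := by
        rw [div_le_div_iff₀ D.qpos (by norm_num), one_mul]
        have := D.pow_le hn
        norm_num at this ⊢
        linarith
      nlinarith
    · have hst := D.Q_step (j := i) (τ := 3 / 10) (by norm_num) hi7 hmi
        (ih i (by omega) h2 (by omega))
      refine hst.trans ?_
      apply mul_le_mul_of_nonneg_right _ (sq_nonneg _)
      nlinarith

theorem pos_large (hn : 11 ≤ n) {k : ℕ} (hk : 4 ≤ k) (hkn : 2 * k + 1 ≤ n) : 0 < N k := by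
  obtain ⟨j, rfl⟩ : ∃ j, k = j + 2 := ⟨k - 2, by omega⟩
  have hQ := D.Q_bounds hn j (by omega) (by omega)
  have hQ1 := D.Q1_bound hn
  obtain ⟨Δ, hΔ, h⟩ := D.Nrec j
  have hG1pos : 0 < G (j + 1) := by
    -- positivity of G
    have hpos : ∀ i, i ≤ n → 0 < G i := by
      intro i
      induction i with
      | zero => intro _; rw [D.G0]; norm_num
      | succ i ihi =>
        intro hi
        have h1 := ihi (by omega)
        have h2 := D.Grec i
        have h3 : 1 < q / 2 ^ i := by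
          rw [lt_div_iff₀ (by positivity), one_mul, D.hq]
          exact pow_lt_pow_right₀ (by norm_num) (by omega)
        have h4 : 0 < G i * (q / 2 ^ i - 1) := mul_pos h1 (by linarith)
        rw [h2] at h4
        have h5 : (1 : ℝ) < 2 ^ (i + 1) := one_lt_pow₀ (by norm_num) (by omega)
        exact (mul_pos_iff_of_pos_right (by linarith)).mp h4
    exact hpos _ (by omega)
  have hΔ' : |Δ| ≤ 55 / 100 * G (j + 1) := by
    have h1 : Δ ^ 2 ≤ (55 / 100 * G (j + 1)) ^ 2 := by nlinarith [sq_nonneg (G (j + 1))]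
    exact abs_le_of_sq_le_sq h1 (by positivity)
  have h31 : ∀ l, 1 ≤ l → 2 * l + 5 ≤ n → q * Q l ≤ (31 / 10 * G (l + 1)) ^ 2 := by
    intro l hl hln
    rcases Nat.lt_or_ge l 2 with h4 | h4
    · have : l = 1 := by omega
      subst this
      have : (1 : ℕ) + 1 = 2 := rfl
      rw [this]
      nlinarith [sq_nonneg (G 2)]
    · have := D.Q_bounds hn l h4 hln
      nlinarith [sq_nonneg (G (l + 1))]
  have hratio := D.G_ratio (j := j) (by omega)
  have hGj : G j ≤ 1 / 16 * G (j + 1) := by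
    have h1 : (32 : ℝ) * 4 ^ j ≤ q := by
      rw [D.hq]
      calc (32 : ℝ) * 4 ^ j = 2 ^ (2 * j + 5) := by rw [pow_add, pow_mul]; norm_num; ring
        _ ≤ 2 ^ n := pow_le_pow_right₀ (by norm_num) (by omega)
    have hXpos : (0 : ℝ) < 4 ^ j := by positivity
    have h2 : 32 * 4 ^ j * G j ≤ 2 * 4 ^ j * G (j + 1) :=
      (mul_le_mul_of_nonneg_right h1 (D.Gnn j)).trans hratio
    have h3 : 4 ^ j * (32 * G j) ≤ 4 ^ j * (2 * G (j + 1)) := by linarith
    have h4 := le_of_mul_le_mul_left h3 hXpos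
    linarith
  have hN1 : N (j + 1) ≤ 5 / 100 * G (j + 1) := by
    obtain ⟨i, rfl⟩ : ∃ i, j = i + 1 := ⟨j - 1, by omega⟩
    have h1 := D.N_bound (j := i) (by omega) (h31 i (by omega) (by omega))
    have h2 : (4 : ℝ) ≤ 2 ^ (i + 1) := by
      calc (4 : ℝ) = 2 ^ 2 := by norm_num
        _ ≤ 2 ^ (i + 1) := pow_le_pow_right₀ (by norm_num) (by omega)
    have h3 : (8 : ℝ) ≤ 2 ^ (i + 2) := by
      calc (8 : ℝ) = 2 ^ 3 := by norm_num
        _ ≤ 2 ^ (i + 2) := pow_le_pow_right₀ (by norm_num) (by omega)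
    have h4 := D.Nnn (i + 2)
    have h5 : 4 * (7 * N (i + 2)) ≤ 2 ^ (i + 1) * ((2 ^ (i + 2) - 1) * N (i + 2)) := by
      apply mul_le_mul h2 _ (by positivity) (by positivity)
      apply mul_le_mul_of_nonneg_right _ h4
      linarith
    have e1 : i + 1 + 1 = i + 2 := rfl
    rw [e1] at hGj ⊢
    linarith
  have hm : N j * (q / 2 ^ j - 1) ≤ 10 / 100 * G (j + 1) := by
    rcases Nat.lt_or_ge j 3 with h3 | h3
    · have : j = 2 := by omega
      subst this
      rw [D.N2, zero_mul]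
      positivity
    · obtain ⟨l, rfl⟩ : ∃ l, j = l + 2 := ⟨j - 2, by omega⟩
      have h1 := D.m_bound (j := l) (by omega) (h31 l (by omega) (by omega))
      have h2 : (8 : ℝ) ≤ 2 ^ (l + 2) := by
        calc (8 : ℝ) = 2 ^ 3 := by norm_num
          _ ≤ 2 ^ (l + 2) := pow_le_pow_right₀ (by norm_num) (by omega)
      have h4 := D.Gnn (l + 2)
      have h5 : 41 / 10 * G (l + 2) / 2 ^ (l + 2) ≤ 41 / 10 * G (l + 2) / 8 := by
        apply div_le_div_of_nonneg_left (by positivity) (by norm_num) h2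
      linarith
  have h2 := neg_abs_le Δ
  have h3 : 0 < 2 ^ (j + 1) * ((2 ^ (j + 2) - 1) * N (j + 2)) := by
    rw [h]
    linarith
  have h5 : (1 : ℝ) < 2 ^ (j + 2) := one_lt_pow₀ (by norm_num) (by omega)
  have h6 : (0 : ℝ) < 2 ^ (j + 1) := by positivity
  have h7 := (mul_pos_iff_of_pos_left h6).mp h3
  exact (mul_pos_iff_of_pos_left (by linarith)).mp h7

theorem pos_nine (hn : n = 9) : 0 < N 4 := by
  have hq : q = 512 := by rw [D.hq, hn]; norm_num
  subst hq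
  have hG1 := D.G1
  have hG2 := D.G2
  have hG3 := D.G3
  norm_num at hG1 hG2 hG3
  have hQ1 := D.Q1
  norm_num at hQ1
  have hQ2 := D.Qrec 1
  rw [D.N1, hG1, hQ1] at hQ2
  norm_num at hQ2
  obtain ⟨Δ1, hΔ1, h1⟩ := D.Nrec 1
  rw [D.N1, hQ1] at *
  norm_num at hΔ1 h1
  rw [D.N2, hG2] at h1
  obtain ⟨Δ2, hΔ2, h2⟩ := D.Nrec 2
  norm_num at h2
  rw [D.N2, hG3] at h2
  have hb1 : |Δ1| ≤ 130700 := by
    apply abs_le_of_sq_le_sq _ (by norm_num)
    linarith
  have hb2 : |Δ2| ≤ 741000 := by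
    apply abs_le_of_sq_le_sq _ (by norm_num)
    linarith
  have e1 := le_abs_self Δ1
  have e2 := neg_abs_le Δ2
  linarith

end Data

end Pool.Agent.Carlet
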