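import Pool.Agent.Carlet.Kl
import Pool.Agent.Carlet.Real

set_option autoImplicit false
set_option linter.unusedSectionVars false

namespace Pool.Agent.Carlet

open Finset Module

variable {K : Type*} [Field K] [Fintype K] [Algebra (ZMod 2) K]

theorem Gc_two (ψ : Chr K) : Gc K 2 = (qq K - 1) * (qq K - 2) / 6 := by
  have h1 := Gc_rec ψ (K := K) 1
  rw [Gc_one ψ] at h1
  norm_num at h1
  linarith

theorem Gc_three (ψ : Chr K) : Gc K 3 = (qq K - 1) * (qq K - 2) * (qq K - 4) / 168 := by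
  have h1 := Gc_rec ψ (K := K) 2
  rw [Gc_two ψ] at h1
  norm_num at h1
  linarith

/-- The number of zero-sum subspaces of dimension three through the Kloosterman sum. -/
theorem Nc_three_eq (ψ : Chr K) : 168 * Nc K 3 = (qq K - 1) * (qq K + 1 - 3 * kl ψ 1) := by
  classical
  have h := M_rec ψ 1 (one_ne_zero (α := K))
  rw [M_one ψ, Nc_two ψ] at h
  have hG2 := Gc_two ψ
  have h1 : ∑ a, ef K 1 a * ψ.f (1 * a) = -((qq K - 1) / 2 * (kl ψ 1 - 1)) := by
    have hef : ∀ a ∈ (Finset.univ.erase (0 : K)).erase 1, ef K 1 a * ψ.f (1 * a) =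
        (qq K - 1) / 2 * ψ.f (a * 1) - (qq K - 1) / 2 * (EE ψ a * ψ.f (1 * a)) := by
      intro a ha
      rw [Finset.mem_erase, Finset.mem_erase] at ha
      unfold ef EE
      rw [if_neg ha.2.1, if_neg ha.2.1]
      have hne : a⁻¹ + 1 ≠ 0 := by
        intro h2
        apply ha.1
        exact inv_eq_one.mp (add_eq_zero_iff'.mp h2)
      have h3 := M_one_val ψ hne
      rw [ψ.add, ψ.one] at h3
      have h4 : M K 1 (a⁻¹ + 1) = (qq K - 1) / 2 * (1 - ψ.f a⁻¹) := by linarith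
      rw [h4, mul_one, one_mul]
      ring
    have hmem : (1 : K) ∈ Finset.univ.erase (0 : K) :=
      Finset.mem_erase.mpr ⟨one_ne_zero, Finset.mem_univ _⟩
    rw [← Finset.add_sum_erase _ _ (Finset.mem_univ (0 : K)), ← Finset.add_sum_erase _ _ hmem,
      Finset.sum_congr rfl hef, Finset.sum_sub_distrib, ← Finset.mul_sum, ← Finset.mul_sum]
    have e0 : ef K 1 (0 : K) = 0 := by unfold ef; rw [if_pos rfl]
    have e1 : ef K 1 (1 : K) = 0 := by
      unfold ef
      rw [if_neg one_ne_zero, inv_one, add_self, M_zero, Nc_one ψ, zero_mul]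
    rw [e0, e1]
    have hs := ψ.sum_mul' (1 : K)
    rw [if_neg one_ne_zero, ← Finset.add_sum_erase _ _ (Finset.mem_univ (0 : K)),
      ← Finset.add_sum_erase _ _ hmem] at hs
    simp only [zero_mul, ψ.zero, one_mul, ψ.one] at hs
    have hk : kl ψ 1 = 1 + ∑ a ∈ (Finset.univ.erase (0 : K)).erase 1, EE ψ a * ψ.f (1 * a) := by
      unfold kl
      rw [← Finset.add_sum_erase _ _ (Finset.mem_univ (0 : K)), ← Finset.add_sum_erase _ _ hmem]
      have e2 : EE ψ (0 : K) = 0 := by unfold EE; rw [if_pos rfl]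
      have e3 : EE ψ (1 : K) = -1 := by
        unfold EE; rw [if_neg one_ne_zero, inv_one, ψ.one]
      rw [e2, e3, mul_one, ψ.one]
      ring
    have h5 : ∑ x ∈ (Finset.univ.erase (0 : K)).erase 1, ψ.f (x * 1) = 0 := by
      have : ∑ x ∈ (Finset.univ.erase (0 : K)).erase 1, ψ.f (x * 1) =
        ∑ x ∈ (Finset.univ.erase (0 : K)).erase 1, ψ.f (x * 1) := rfl
      linarith
    rw [h5, hk]
    ring
  rw [h1, hG2] at h
  norm_num at h
  linarith

theorem kl_one_pow (ψ : Chr K) (hq : 1 ≤ qq K) : kl ψ 1 ^ 4 ≤ 2 * qq K ^ 3 := by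
  classical
  have h4 := kl_sum_four ψ
  have h1 : kl ψ 1 ^ 4 ≤ ∑ b, kl ψ b ^ 4 :=
    Finset.single_le_sum (f := fun b => kl ψ b ^ 4) (fun b _ => by positivity) (Finset.mem_univ 1)
  rw [h4] at h1
  nlinarith

/-- The ratio for dimension three. -/
theorem ratio_three (ψ : Chr K) (hq : 2048 ≤ qq K) {w : ℝ} (hw0 : 0 ≤ w)
    (hw : qq K * w ^ 4 = 1) :
    |Nc K 3 * qq K / Gc K 3 - 1| ≤ 4 * w ∧ |Nc K 3 * qq K / Gc K 3 - 1| ≤ 2 / 3 := by
  have hN := Nc_three_eq ψ
  have hG := Gc_three ψ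
  have hkl := kl_one_pow ψ (by linarith)
  set q := qq K with hqdef
  set κ := kl ψ 1 with hκ
  have hqp : 0 < q := by linarith
  have hwq : w ^ 4 = 1 / q := by rw [eq_div_iff hqp.ne', ← hw]; ring
  have hw015 : w ≤ 15 / 100 := by
    by_contra hcon
    push Not at hcon
    have h1 : (15 / 100 : ℝ) ^ 4 < w ^ 4 := pow_lt_pow_left₀ hcon (by norm_num) (by norm_num)
    have h2 : 2048 * w ^ 4 ≤ 1 := by
      rw [← hw]
      exact mul_le_mul_of_nonneg_right hq (by positivity)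
    norm_num at h1
    linarith
  -- |κ| ≤ 1.19 q w
  have hκ1 : |κ| ≤ 119 / 100 * (q * w) := by
    by_contra hcon
    push Not at hcon
    have h1 : (119 / 100 * (q * w)) ^ 4 < |κ| ^ 4 :=
      pow_lt_pow_left₀ hcon (by positivity) (by norm_num)
    have h2 : |κ| ^ 4 = κ ^ 4 := Even.pow_abs (by decide) κ
    have h3 : (119 / 100 * (q * w)) ^ 4 = (119 / 100) ^ 4 * q ^ 3 * (q * w ^ 4) := by ring
    rw [h2, h3, hw, mul_one] at h1
    have h4 : 2 * q ^ 3 ≤ (119 / 100) ^ 4 * q ^ 3 := by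
      apply mul_le_mul_of_nonneg_right _ (by positivity)
      norm_num
    linarith
  have hq2 : 0 < (q - 2) * (q - 4) := by
    apply mul_pos <;> linarith
  have hq1 : (0 : ℝ) < q - 1 := by linarith
  have hD : 997 / 1000 * q ^ 2 ≤ (q - 2) * (q - 4) := by nlinarith
  have hratio : Nc K 3 * q / Gc K 3 - 1 = (7 * q - 8 - 3 * q * κ) / ((q - 2) * (q - 4)) := by
    have hN' : Nc K 3 = (q - 1) * (q + 1 - 3 * κ) / 168 := by linarith
    rw [hN', hG]
    have h24 : q - 2 ≠ 0 := by intro h; rw [h, zero_mul] at hq2; exact lt_irrefl _ hq2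
    have h44 : q - 4 ≠ 0 := by intro h; rw [h, mul_zero] at hq2; exact lt_irrefl _ hq2
    have h11 : q - 1 ≠ 0 := hq1.ne'
    field_simp
    ring
  have hmain : |Nc K 3 * q / Gc K 3 - 1| ≤ 362 / 100 * w := by
    rw [hratio, abs_div, abs_of_pos hq2, div_le_iff₀ hq2]
    have h1 : |7 * q - 8 - 3 * q * κ| ≤ 7 * q + 3 * q * |κ| := by
      rw [abs_le]
      have e1 := le_abs_self κ
      have e2 := neg_abs_le κ
      constructor
      · nlinarith
      · nlinarith
    have h2 : 3 * q * |κ| ≤ 357 / 100 * (q ^ 2 * w) := by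
      have := mul_le_mul_of_nonneg_left hκ1 (show (0 : ℝ) ≤ 3 * q by linarith)
      calc 3 * q * |κ| ≤ 3 * q * (119 / 100 * (q * w)) := this
        _ = 357 / 100 * (q ^ 2 * w) := by ring
    have h3 : 7 * q = 7 * (q ^ 2 * w ^ 4) := by
      have : q ^ 2 * w ^ 4 = q * (q * w ^ 4) := by ring
      rw [this, hw, mul_one]
    have h4 : w ^ 4 ≤ 34 / 10000 * w := by
      have : w ^ 3 ≤ (15 / 100) ^ 3 := pow_le_pow_left₀ hw0 hw015 3
      norm_num at this
      nlinarith
    have h5 : 7 * q ≤ 238 / 10000 * (q ^ 2 * w) := by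
      rw [h3]
      nlinarith [sq_nonneg q]
    have h6 : 362 / 100 * w * (997 / 1000 * q ^ 2) ≤ 362 / 100 * w * ((q - 2) * (q - 4)) :=
      mul_le_mul_of_nonneg_left hD (by positivity)
    nlinarith [mul_nonneg (sq_nonneg q) hw0]
  constructor
  · linarith
  · linarith

end Pool.Agent.Carlet
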