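import Pool.Agent.Carlet.Dual
import Pool.Agent.Carlet.Quant
import Pool.Agent.Carlet.Three

set_option autoImplicit false
set_option linter.unusedSectionVars false

namespace Pool.Agent.Carlet

open Finset Module

variable {K : Type*} [Field K] [Fintype K] [Algebra (ZMod 2) K]

/-- Multiplication of a subspace by a scalar of the field. -/
noncomputable def scale (c : K) (F : Submodule (ZMod 2) K) : Submodule (ZMod 2) K :=
  F.map (LinearMap.mulLeft (ZMod 2) c)

theorem mem_scale {c : K} (hc : c ≠ 0) {F : Submodule (ZMod 2) K} {x : K} :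
    x ∈ scale c F ↔ c⁻¹ * x ∈ F := by
  unfold scale
  rw [Submodule.mem_map]
  constructor
  · rintro ⟨y, hy, rfl⟩
    rw [LinearMap.mulLeft_apply, inv_mul_cancel_left₀ hc]
    exact hy
  · intro h
    exact ⟨c⁻¹ * x, h, by rw [LinearMap.mulLeft_apply, mul_inv_cancel_left₀ hc]⟩

theorem mulLeft_inj {c : K} (hc : c ≠ 0) :
    Function.Injective (LinearMap.mulLeft (ZMod 2) c : K →ₗ[ZMod 2] K) := by
  intro a b h
  rw [LinearMap.mulLeft_apply, LinearMap.mulLeft_apply] at h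
  exact mul_left_cancel₀ hc h

theorem finrank_scale {c : K} (hc : c ≠ 0) (F : Submodule (ZMod 2) K) :
    finrank (ZMod 2) (scale c F) = finrank (ZMod 2) F :=
  (LinearEquiv.finrank_eq (Submodule.equivMapOfInjective _ (mulLeft_inj hc) F)).symm

theorem SH_scale {c : K} (hc : c ≠ 0) (F : Submodule (ZMod 2) K) :
    SH (scale c F) = c⁻¹ * SH F := by
  classical
  unfold SH
  rw [Finset.mul_sum]
  apply Finset.sum_nbij' (fun x => c⁻¹ * x) (fun x => c * x)
  · intro x hx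
    rw [mem_el] at hx ⊢
    exact (mem_scale hc).mp hx
  · intro x hx
    rw [mem_el] at hx ⊢
    rw [mem_scale hc, inv_mul_cancel_left₀ hc]
    exact hx
  · intro x _
    exact mul_inv_cancel_left₀ hc x
  · intro x _
    exact inv_mul_cancel_left₀ hc x
  · intro x _
    rw [mul_inv, inv_inv, inv_mul_cancel_left₀ hc]

theorem scale_inj {c : K} (hc : c ≠ 0) : Function.Injective (scale c) := by
  intro F F' h
  ext x
  have h1 : c * x ∈ scale c F ↔ c * x ∈ scale c F' := by rw [h]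
  rw [mem_scale hc, mem_scale hc, inv_mul_cancel_left₀ hc] at h1
  exact h1

open Classical in
/-- Number of `k`-dimensional subspaces with inverse sum `s`. -/
noncomputable def Cs (K : Type*) [Field K] [Fintype K] [Algebra (ZMod 2) K] (k : ℕ) (s : K) : ℕ :=
  ((Gr K k).filter (fun H => SH H = s)).card

theorem Cs_zero (k : ℕ) : (Cs K k 0 : ℝ) = Nc K k := rfl

theorem Cs_le (k : ℕ) {c : K} (hc : c ≠ 0) (s : K) : Cs K k s ≤ Cs K k (c⁻¹ * s) := by
  classical
  unfold Cs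
  apply Finset.card_le_card_of_injOn (scale c)
  · intro F hF
    rw [Finset.mem_coe, Finset.mem_filter, mem_Gr] at hF ⊢
    rw [finrank_scale hc, SH_scale hc, hF.2]
    exact ⟨hF.1, rfl⟩
  · intro F _ F' _ h
    exact scale_inj hc h

theorem Cs_eq_one (k : ℕ) {s : K} (hs : s ≠ 0) : Cs K k s = Cs K k 1 := by
  apply le_antisymm
  · have h := Cs_le (K := K) k hs s
    rwa [inv_mul_cancel₀ hs] at h
  · have h := Cs_le (K := K) k (inv_ne_zero hs) 1
    rwa [inv_inv, mul_one] at h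

theorem sum_Cs (k : ℕ) : Gc K k = Nc K k + (qq K - 1) * (Cs K k 1 : ℝ) := by
  classical
  have h1 : (Gr K k).card = ∑ s : K, Cs K k s := by
    unfold Cs
    exact Finset.card_eq_sum_card_fiberwise (fun _ _ => Finset.mem_univ _)
  rw [← Finset.add_sum_erase _ _ (Finset.mem_univ (0 : K))] at h1
  have h2 : ∑ s ∈ Finset.univ.erase (0 : K), Cs K k s = (Fintype.card K - 1) * Cs K k 1 := by
    rw [Finset.sum_congr rfl (fun s hs => Cs_eq_one k (Finset.mem_erase.mp hs).1),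
      Finset.sum_const, Finset.card_erase_of_mem (Finset.mem_univ _), Finset.card_univ,
      smul_eq_mul]
  rw [h2] at h1
  have hpos : 1 ≤ Fintype.card K := Fintype.card_pos
  have h3 : Gc K k = ((Cs K k 0 + (Fintype.card K - 1) * Cs K k 1 : ℕ) : ℝ) := by
    rw [← h1]; rfl
  rw [h3, Nat.cast_add, Nat.cast_mul, Nat.cast_sub hpos, Nat.cast_one, Cs_zero]
  rfl

/-- Reduction of every value to the value zero. -/
theorem ratio_value {k : ℕ} (hq : 2 ≤ qq K) (hG : 0 < Gc K k) (s : K) :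
    |(Cs K k s : ℝ) * qq K / Gc K k - 1| ≤ |Nc K k * qq K / Gc K k - 1| := by
  by_cases hs : s = 0
  · rw [hs, Cs_zero]
  · rw [Cs_eq_one k hs]
    have h := sum_Cs (K := K) k
    have hq1 : 0 < qq K - 1 := by linarith
    have h1 : (Cs K k 1 : ℝ) = (Gc K k - Nc K k) / (qq K - 1) := by
      rw [eq_div_iff hq1.ne']; linarith
    have h2 : (Cs K k 1 : ℝ) * qq K / Gc K k - 1 =
        -(Nc K k * qq K / Gc K k - 1) / (qq K - 1) := by
      rw [h1]
      have := hG.ne'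
      have := hq1.ne'
      field_simp
      ring
    rw [h2, abs_div, abs_neg, abs_of_pos hq1]
    apply div_le_self (abs_nonneg _)
    linarith

theorem w_pow (n : ℕ) : (2 : ℝ) ^ n * ((2 : ℝ) ^ (-(n : ℝ) / 4)) ^ 4 = 1 := by
  rw [← Real.rpow_natCast ((2 : ℝ) ^ (-(n : ℝ) / 4)) 4, ← Real.rpow_mul (by norm_num),
    ← Real.rpow_natCast (2 : ℝ) n, ← Real.rpow_add (by norm_num)]
  have : (n : ℝ) + -(n : ℝ) / 4 * ((4 : ℕ) : ℝ) = 0 := by
    push_cast
    ring
  rw [this, Real.rpow_zero]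

theorem four_pow_div (n k : ℕ) (hk : 2 * k ≤ n) :
    (4 : ℝ) ^ k / 2 ^ n = (2 : ℝ) ^ (-|(n : ℝ) - 2 * k|) := by
  have h1 : (0 : ℝ) ≤ (n : ℝ) - 2 * k := by
    have : ((2 * k : ℕ) : ℝ) ≤ n := by exact_mod_cast hk
    push_cast at this
    linarith
  rw [abs_of_nonneg h1, neg_sub, Real.rpow_sub (by norm_num), Real.rpow_natCast]
  congr 1
  rw [show (4 : ℝ) = 2 ^ 2 by norm_num, ← pow_mul, ← Real.rpow_natCast]
  push_cast
  rfl

theorem ratio_low (ψ : Chr K) (hn : 11 ≤ finrank (ZMod 2) K) {k : ℕ} (hk3 : 3 ≤ k)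
    (hk : 2 * k + 1 ≤ finrank (ZMod 2) K) :
    |Nc K k * qq K / Gc K k - 1| ≤ 2 / 3 ∧
    |Nc K k * qq K / Gc K k - 1| ≤ 4 * (2 : ℝ) ^ (-(finrank (ZMod 2) K : ℝ) / 4) +
      (2 : ℝ) ^ (-|(finrank (ZMod 2) K : ℝ) - 2 * k|) := by
  have hD := data ψ
  have hqe : qq K = 2 ^ finrank (ZMod 2) K := qq_eq
  have hw := w_pow (finrank (ZMod 2) K)
  rw [← hqe] at hw
  have hw0 : 0 ≤ (2 : ℝ) ^ (-(finrank (ZMod 2) K : ℝ) / 4) := by positivity
  rcases Nat.lt_or_ge k 4 with h4 | h4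
  · have hk' : k = 3 := by omega
    subst hk'
    have hq : 2048 ≤ qq K := by
      have := hD.pow_le hn
      norm_num at this
      exact this
    obtain ⟨h1, h2⟩ := ratio_three ψ hq hw0 hw
    refine ⟨h2, h1.trans (le_add_of_nonneg_right ?_)⟩
    positivity
  · refine ⟨hD.explicit hn h4 hk, ?_⟩
    rw [← four_pow_div _ _ (by omega), ← hqe]
    exact hD.asymp hn h4 hk hw0 hw

theorem ratio_all (ψ : Chr K) (hodd : Odd (finrank (ZMod 2) K)) (hn : 11 ≤ finrank (ZMod 2) K)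
    {k : ℕ} (hk3 : 3 ≤ k) (hk : k ≤ finrank (ZMod 2) K - 3) :
    |Nc K k * qq K / Gc K k - 1| ≤ 2 / 3 ∧
    |Nc K k * qq K / Gc K k - 1| ≤ 4 * (2 : ℝ) ^ (-(finrank (ZMod 2) K : ℝ) / 4) +
      (2 : ℝ) ^ (-|(finrank (ZMod 2) K : ℝ) - 2 * k|) := by
  rcases Nat.lt_or_ge (finrank (ZMod 2) K) (2 * k + 1) with h | h
  · have hq : 3 < Fintype.card K := by
      have h1 := Module.card_eq_pow_finrank (K := ZMod 2) (V := K)
      rw [ZMod.card] at h1
      rw [h1]
      calc 3 < 2 ^ 11 := by norm_num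
        _ ≤ 2 ^ finrank (ZMod 2) K := Nat.pow_le_pow_right (by norm_num) hn
    obtain ⟨r, hr⟩ := hodd
    have h1 := ratio_low ψ hn (k := finrank (ZMod 2) K - k) (by omega) (by omega)
    rw [Nc_dual hq (by omega), Gc_dual (by omega)] at h1
    have h2 : |(finrank (ZMod 2) K : ℝ) - 2 * ((finrank (ZMod 2) K - k : ℕ) : ℝ)| =
        |(finrank (ZMod 2) K : ℝ) - 2 * k| := by
      rw [Nat.cast_sub (by omega), ← abs_neg]
      congr 1
      ring
    rw [h2] at h1
    exact h1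
  · exact ratio_low ψ hn hk3 h

theorem Gc_pos (ψ : Chr K) {k : ℕ} (hk : k ≤ finrank (ZMod 2) K) : 0 < Gc K k :=
  (data ψ).G_pos hk

end Pool.Agent.Carlet
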