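import Pool.Agent.Carlet.Kl
import Pool.Agent.Carlet.Real

set_option autoImplicit false
set_option linter.unusedSectionVars false

namespace Pool.Agent.Carlet

open Finset Module

variable {K : Type*} [Field K] [Fintype K] [Algebra (ZMod 2) K]

/-- `Lf F` as a linear map. -/
noncomputable def LL (F : Submodule (ZMod 2) K) : K →ₗ[ZMod 2] K :=
  (AddMonoidHom.mk' (Lf F) (Lf_add F)).toZModLinearMap 2

theorem LL_apply (F : Submodule (ZMod 2) K) (x : K) : LL F x = Lf F x := rfl

theorem ker_LL (F : Submodule (ZMod 2) K) : LinearMap.ker (LL F) = F := by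
  ext x
  rw [LinearMap.mem_ker, LL_apply, Lf_eq_zero]

theorem finrank_range_LL (F : Submodule (ZMod 2) K) :
    finrank (ZMod 2) (LinearMap.range (LL F)) + finrank (ZMod 2) F = finrank (ZMod 2) K := by
  have h := LinearMap.finrank_range_add_finrank_ker (LL F)
  rw [ker_LL] at h
  exact h

/-- Sum of all inverses vanishes. -/
theorem sum_inv_all (hq : 3 < Fintype.card K) : ∑ x : K, x⁻¹ = 0 := by
  have h := FiniteField.sum_pow_lt_card_sub_one K 1 (by omega)
  simp only [pow_one] at h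
  rw [← h]
  exact Equiv.sum_comp (Equiv.inv K) (fun x => x)

/-- Duality identity. -/
theorem duality (hq : 3 < Fintype.card K) (F : Submodule (ZMod 2) K) :
    SH F + aH F * SH (LinearMap.range (LL F)) = 0 := by
  classical
  have h0 := sum_inv_all (K := K) hq
  rw [← Finset.sum_sdiff (Finset.subset_univ (el F))] at h0
  have h1 : ∑ x ∈ Finset.univ \ el F, x⁻¹ = aH F * SH (LinearMap.range (LL F)) := by
    set V := LinearMap.range (LL F) with hV
    have hmaps : ∀ x ∈ Finset.univ \ el F, Lf F x ∈ (el V).erase 0 := by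
      intro x hx
      rw [Finset.mem_sdiff, mem_el] at hx
      rw [Finset.mem_erase, mem_el]
      exact ⟨fun h => hx.2 (Lf_eq_zero.mp h), ⟨x, rfl⟩⟩
    rw [← Finset.sum_fiberwise_of_maps_to hmaps]
    have hS : SH V = ∑ c ∈ (el V).erase 0, c⁻¹ := by
      unfold SH
      rw [← Finset.add_sum_erase _ _ (zero_mem_el V), inv_zero, zero_add]
    rw [hS, Finset.mul_sum]
    apply Finset.sum_congr rfl
    intro c hc
    rw [Finset.mem_erase, mem_el] at hc
    obtain ⟨hc0, x0, hx0⟩ := hc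
    rw [LL_apply] at hx0
    have hx0F : x0 ∉ F := fun h => hc0 (by rw [← hx0]; exact Lf_eq_zero.mpr h)
    have hfib : (Finset.univ \ el F).filter (fun x => Lf F x = c) =
        (el F).image (fun v => v + x0) := by
      ext y
      rw [Finset.mem_filter, Finset.mem_sdiff, Finset.mem_image]
      constructor
      · rintro ⟨_, h2⟩
        refine ⟨y + x0, ?_, add_add_cancel' y x0⟩
        rw [mem_el, ← Lf_eq_zero, Lf_add, h2, hx0, add_self]
      · rintro ⟨v, hv, rfl⟩
        rw [mem_el] at hv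
        refine ⟨⟨Finset.mem_univ _, ?_⟩, ?_⟩
        · rw [mem_el]
          intro h
          apply hx0F
          have := F.add_mem hv h
          rwa [← add_assoc, add_self, zero_add] at this
        · rw [Lf_add, Lf_eq_zero.mpr hv, zero_add, hx0]
    rw [hfib, Finset.sum_image (fun a _ b _ h => add_inj x0 h)]
    have h2 := sum_inv_add hx0F
    rw [hx0] at h2
    rw [← div_eq_mul_inv, ← h2]
    apply Finset.sum_congr rfl
    intro v _
    rw [add_comm]
  rw [h1] at h0
  have h2 : ∑ x ∈ el F, x⁻¹ = SH F := rfl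
  rw [h2] at h0
  rw [add_comm]
  exact h0

theorem exists_dual (hq : 3 < Fintype.card K) {k : ℕ}
    (h : ∃ F : Submodule (ZMod 2) K, finrank (ZMod 2) F = k ∧ SH F = 0) :
    ∃ F : Submodule (ZMod 2) K, finrank (ZMod 2) F + k = finrank (ZMod 2) K ∧ SH F = 0 := by
  obtain ⟨F, hF, hS⟩ := h
  refine ⟨LinearMap.range (LL F), ?_, ?_⟩
  · rw [← hF]
    exact finrank_range_LL F
  · have h1 := duality hq F
    rw [hS, zero_add] at h1
    rcases mul_eq_zero.mp h1 with h2 | h2
    · exact absurd h2 (aH_ne_zero F)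
    · exact h2

theorem exists_of_Nc_pos {k : ℕ} (h : 0 < Nc K k) :
    ∃ F : Submodule (ZMod 2) K, finrank (ZMod 2) F = k ∧ SH F = 0 := by
  classical
  unfold Nc at h
  have h1 : 0 < (NZ K k).card := by exact_mod_cast h
  obtain ⟨F, hF⟩ := Finset.card_pos.mp h1
  unfold NZ at hF
  rw [Finset.mem_filter, mem_Gr] at hF
  exact ⟨F, hF⟩

theorem not_of_Nc_zero {k : ℕ} (h : Nc K k = 0) {F : Submodule (ZMod 2) K}
    (hF : finrank (ZMod 2) F = k) : SH F ≠ 0 := by
  classical
  intro hS
  unfold Nc at h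
  have h1 : (NZ K k).card = 0 := by exact_mod_cast h
  rw [Finset.card_eq_zero] at h1
  have h2 : F ∈ NZ K k := by
    unfold NZ
    rw [Finset.mem_filter, mem_Gr]
    exact ⟨hF, hS⟩
  rw [h1] at h2
  exact absurd h2 (Finset.notMem_empty _)

theorem data (ψ : Chr K) : Data (finrank (ZMod 2) K) (qq K) (Gc K) (Nc K) (QQ K) where
  hq := qq_eq
  G0 := Gc_zero
  Grec := Gc_rec ψ
  Gnn := Gc_nonneg
  Nnn := Nc_nonneg
  Nle := Nc_le
  N1 := Nc_one ψ
  N2 := Nc_two ψ
  Qnn := QQ_nonneg
  Q1 := QQ_one ψ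
  Qrec := fun j => by
    have h := QQ_rec ψ (K := K) j
    rw [M_zero] at h
    exact h
  Nrec := fun j => by
    obtain ⟨Δ, h1, h2⟩ := N_rec ψ (K := K) j
    rw [M_zero] at h2
    exact ⟨Δ, h1, h2⟩

theorem exists_low (ψ : Chr K) (hn : Odd (finrank (ZMod 2) K)) (hn7 : 7 ≤ finrank (ZMod 2) K)
    {k : ℕ} (hk3 : 3 ≤ k) (hk : 2 * k + 1 ≤ finrank (ZMod 2) K) :
    ∃ F : Submodule (ZMod 2) K, finrank (ZMod 2) F = k ∧ SH F = 0 := by
  apply exists_of_Nc_pos
  have hD := data ψ
  set n := finrank (ZMod 2) K with hndef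
  rcases Nat.lt_or_ge k 4 with h | h
  · have hk' : k = 3 := by omega
    subst hk'
    apply Nc_three_pos ψ
    have := hD.pow_le hn7
    norm_num at this
    exact this
  · rcases Nat.lt_or_ge n 11 with h11 | h11
    · obtain ⟨r, hr⟩ := hn
      have hn9 : n = 9 := by omega
      have hk4 : k = 4 := by omega
      subst hk4
      exact hD.pos_nine hn9
    · exact hD.pos_large h11 h hk

theorem main_iff (ψ : Chr K) (hn : Odd (finrank (ZMod 2) K)) (hn7 : 7 ≤ finrank (ZMod 2) K)
    (k : ℕ) : (1 ≤ k ∧ k ≤ finrank (ZMod 2) K - 1 ∧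
      ∃ F : Submodule (ZMod 2) K, finrank (ZMod 2) F = k ∧ SH F = 0) ↔
      (3 ≤ k ∧ k ≤ finrank (ZMod 2) K - 3) := by
  set n := finrank (ZMod 2) K with hndef
  have hq : 3 < Fintype.card K := by
    have h1 := Module.card_eq_pow_finrank (K := ZMod 2) (V := K)
    rw [ZMod.card, ← hndef] at h1
    rw [h1]
    calc 3 < 2 ^ 7 := by norm_num
      _ ≤ 2 ^ n := Nat.pow_le_pow_right (by norm_num) hn7
  constructor
  · rintro ⟨h1, h2, F, hF, hS⟩
    have hk1 : k ≠ 1 := by
      rintro rfl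
      exact not_of_Nc_zero (Nc_one ψ) hF hS
    have hk2 : k ≠ 2 := by
      rintro rfl
      exact not_of_Nc_zero (Nc_two ψ) hF hS
    obtain ⟨F', hF', hS'⟩ := exists_dual hq ⟨F, hF, hS⟩
    rw [← hndef] at hF'
    have hk3 : finrank (ZMod 2) F' ≠ 1 := fun h => not_of_Nc_zero (Nc_one ψ) h hS'
    have hk4 : finrank (ZMod 2) F' ≠ 2 := fun h => not_of_Nc_zero (Nc_two ψ) h hS'
    omega
  · rintro ⟨h1, h2⟩
    refine ⟨by omega, by omega, ?_⟩
    rcases Nat.lt_or_ge n (2 * k + 1) with h | h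
    · obtain ⟨r, hr⟩ := hn
      obtain ⟨F, hF, hS⟩ := exists_low ψ ⟨r, hr⟩ hn7 (k := n - k) (by omega) (by omega)
      obtain ⟨F', hF', hS'⟩ := exists_dual hq ⟨F, hF, hS⟩
      rw [← hndef] at hF'
      exact ⟨F', by omega, hS'⟩
    · exact exists_low ψ hn hn7 h1 h

open Classical in
/-- The trace character. -/
noncomputable def trChr (hn : Odd (finrank (ZMod 2) K)) : Chr K where
  f x := if Algebra.trace (ZMod 2) K x = 0 then 1 else -1
  add x y := by
    rw [map_add]
    rcases zmod2_cases (Algebra.trace (ZMod 2) K x) with hx | hx <;>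
    rcases zmod2_cases (Algebra.trace (ZMod 2) K y) with hy | hy <;>
    rw [hx, hy]
    · simp
    · simp
    · simp
    · have h1 : (1 : ZMod 2) + 1 = 0 := rfl
      rw [if_pos h1, if_neg one_ne_zero]
      norm_num
  frob x := by
    have h1 : Algebra.trace (ZMod 2) K (x ^ 2) = Algebra.trace (ZMod 2) K x := by
      have h2 := Algebra.trace_eq_of_algEquiv
        (FiniteField.frobeniusAlgEquivOfAlgebraic (ZMod 2) K) x
      rw [← h2]
      congr 1
    rw [h1]
  one := by
    have h1 : Algebra.trace (ZMod 2) K 1 = 1 := by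
      have h2 := Algebra.trace_algebraMap (R := ZMod 2) (S := K) (1 : ZMod 2)
      rw [map_one] at h2
      rw [h2]
      obtain ⟨r, hr⟩ := hn
      rw [hr, nsmul_eq_mul, mul_one]
      push_cast
      have h3 : (2 : ZMod 2) = 0 := rfl
      rw [h3]
      ring
    rw [h1, if_neg one_ne_zero]

theorem final (n : ℕ) (hn : Odd n) (h7 : 7 ≤ n) (k : ℕ) :
      ((1 ≤ k ∧ k ≤ n - 1 ∧
        ∃ F : Subspace (ZMod 2) (GaloisField 2 n),
          Module.finrank (ZMod 2) F = k ∧
          ∑ᶠ v ∈ (F : Set (GaloisField 2 n)), v⁻¹ = 0) ↔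
        (3 ≤ k ∧ k ≤ n - 3)) := by
  classical
  have hfr : finrank (ZMod 2) (GaloisField 2 n) = n := GaloisField.finrank 2 (by omega)
  let _ : Fintype (GaloisField 2 n) := Fintype.ofFinite _
  have hmain := main_iff (K := GaloisField 2 n) (trChr (by rw [hfr]; exact hn))
    (by rw [hfr]; exact hn) (by rw [hfr]; exact h7) k
  rw [hfr] at hmain
  have hconv : ∀ F : Submodule (ZMod 2) (GaloisField 2 n),
      ∑ᶠ v ∈ (F : Set (GaloisField 2 n)), v⁻¹ = SH F := by
    intro F
    have h1 : (F : Set (GaloisField 2 n)) = ↑(el F) := by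
      ext x
      rw [Finset.mem_coe, mem_el]
      rfl
    rw [h1, finsum_mem_coe_finset]
    rfl
  simp only [hconv]
  exact hmain

end Pool.Agent.Carlet
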