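import Pool.Agent.Carlet.Count

set_option autoImplicit false
set_option linter.unusedSectionVars false

namespace Pool.Agent.Carlet

open Finset Module

variable {K : Type*} [Field K] [Fintype K] [Algebra (ZMod 2) K]

theorem Nc_nonneg (j : ℕ) : 0 ≤ Nc K j := by unfold Nc; positivity

theorem Nc_le (j : ℕ) : Nc K j ≤ Gc K j := by
  classical
  unfold Nc Gc NZ
  exact_mod_cast Finset.card_filter_le _ _

theorem Gc_nonneg (j : ℕ) : 0 ≤ Gc K j := by unfold Gc; positivity

noncomputable def cc (K : Type*) [Field K] [Fintype K] [Algebra (ZMod 2) K] (j : ℕ) : ℝ :=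
  (Gc K j - Nc K j) / 2 ^ j

open Classical in
noncomputable def QQ (K : Type*) [Field K] [Fintype K] [Algebra (ZMod 2) K] (j : ℕ) : ℝ :=
  ∑ u ∈ Finset.univ.erase (0 : K), (M K j u - cc K j) ^ 2

theorem QQ_nonneg (j : ℕ) : 0 ≤ QQ K j := Finset.sum_nonneg (fun _ _ => sq_nonneg _)

theorem hat_L2 (ψ : Chr K) (e : K → ℝ) : (open Classical in
    ∑ u ∈ Finset.univ.erase (0 : K), (∑ a, e a * ψ.f (u * a)) ^ 2) =
      qq K * ∑ a, e a ^ 2 - (∑ a, e a) ^ 2 := by
  classical
  have h := ψ.parseval e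
  rw [← Finset.add_sum_erase _ _ (Finset.mem_univ (0 : K))] at h
  simp only [zero_mul, ψ.zero, mul_one] at h
  unfold qq
  rw [← h]
  ring

theorem var_le (e : K → ℝ) (c : ℝ) :
    qq K * ∑ a, e a ^ 2 - (∑ a, e a) ^ 2 ≤ qq K * ∑ a, (e a - c) ^ 2 := by
  have h1 : ∑ a, (e a - c) ^ 2 = ∑ a, e a ^ 2 - 2 * c * ∑ a, e a + qq K * c ^ 2 := by
    have : ∀ a, (e a - c) ^ 2 = e a ^ 2 - 2 * c * e a + c ^ 2 := fun a => by ring
    simp only [this, Finset.sum_add_distrib, Finset.sum_sub_distrib, ← Finset.mul_sum,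
      Finset.sum_const, nsmul_eq_mul, Finset.card_univ]
    rfl
  rw [h1]
  nlinarith [sq_nonneg (∑ a, e a - qq K * c)]

/-- Reindexing `a ↦ a⁻¹ + 1`. -/
theorem sum_reindex (g : K → ℝ) : (open Classical in
    ∑ a ∈ Finset.univ.erase (0 : K), g (a⁻¹ + 1)) =
      (open Classical in ∑ u ∈ Finset.univ.erase (1 : K), g u) := by
  classical
  apply Finset.sum_nbij' (fun a => a⁻¹ + 1) (fun u => (u + 1)⁻¹)
  · intro a ha
    rw [Finset.mem_erase] at ha ⊢
    refine ⟨fun h => ?_, Finset.mem_univ _⟩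
    have : a⁻¹ = 0 := by simpa using h
    exact inv_ne_zero ha.1 this
  · intro u hu
    rw [Finset.mem_erase] at hu ⊢
    refine ⟨inv_ne_zero (fun h => hu.1 (add_eq_zero_iff'.mp h)), Finset.mem_univ _⟩
  · intro a _
    rw [add_add_cancel', inv_inv]
  · intro u _
    rw [inv_inv, add_add_cancel']
  · intro a _
    rfl

theorem sum_ef_sq (j : ℕ) (c : ℝ) :
    ∑ a, (ef K j a - c) ^ 2 = c ^ 2 + (open Classical in
      ∑ u ∈ Finset.univ.erase (1 : K), (M K j u - c) ^ 2) := by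
  classical
  rw [← Finset.add_sum_erase _ _ (Finset.mem_univ (0 : K))]
  congr 1
  · unfold ef
    rw [if_pos rfl]
    ring
  · rw [← sum_reindex (fun u => (M K j u - c) ^ 2)]
    apply Finset.sum_congr rfl
    intro a ha
    unfold ef
    rw [if_neg (Finset.mem_erase.mp ha).1]

theorem QQ_rec (ψ : Chr K) (j : ℕ) :
    4 ^ (j + 1) * QQ K (j + 1) ≤
      qq K * (cc K j ^ 2 + (M K j 0 - cc K j) ^ 2 + QQ K j) := by
  classical
  have h1 : 4 ^ (j + 1) * QQ K (j + 1) =
      ∑ u ∈ Finset.univ.erase (0 : K), (∑ a, ef K j a * ψ.f (u * a)) ^ 2 := by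
    unfold QQ
    rw [Finset.mul_sum]
    apply Finset.sum_congr rfl
    intro u hu
    have h2 := M_rec ψ j (Finset.mem_erase.mp hu).1
    have h3 : ∑ a, ef K j a * ψ.f (u * a) = 2 ^ (j + 1) * (M K (j + 1) u - cc K (j + 1)) := by
      unfold cc
      rw [mul_sub, h2]
      field_simp
      ring
    rw [h3, mul_pow, ← pow_mul, mul_comm (j + 1) 2, pow_mul]
    norm_num
  rw [h1, hat_L2]
  refine (var_le _ (cc K j)).trans ?_
  apply mul_le_mul_of_nonneg_left _ qq_pos.le
  rw [sum_ef_sq]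
  have h2 : ∑ u ∈ Finset.univ.erase (1 : K), (M K j u - cc K j) ^ 2 ≤
      (M K j 0 - cc K j) ^ 2 + QQ K j := by
    have h01 : (0 : K) ∈ Finset.univ.erase (1 : K) :=
      Finset.mem_erase.mpr ⟨zero_ne_one, Finset.mem_univ _⟩
    rw [← Finset.add_sum_erase _ _ h01]
    unfold QQ
    have : ∑ x ∈ (Finset.univ.erase (1 : K)).erase 0, (M K j x - cc K j) ^ 2 ≤
        ∑ x ∈ Finset.univ.erase (0 : K), (M K j x - cc K j) ^ 2 := by
      apply Finset.sum_le_sum_of_subset_of_nonneg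
      · intro x hx
        rw [Finset.mem_erase] at hx ⊢
        exact ⟨hx.1, Finset.mem_univ _⟩
      · intro x _ _
        exact sq_nonneg _
    linarith
  linarith

/-- The evaluation at `u = 1`. -/
theorem N_rec (ψ : Chr K) (j : ℕ) : ∃ Δ : ℝ, Δ ^ 2 ≤ qq K * QQ K j ∧
    2 ^ (j + 1) * ((2 ^ (j + 2) - 1) * Nc K (j + 2)) =
      Gc K (j + 1) - Nc K (j + 1) - M K j 0 + Δ := by
  classical
  set c := cc K j with hc
  refine ⟨∑ u ∈ (Finset.univ.erase (1 : K)).erase 0, (M K j u - c) * ψ.f ((u + 1)⁻¹), ?_, ?_⟩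
  · have hcs := Finset.sum_mul_sq_le_sq_mul_sq ((Finset.univ.erase (1 : K)).erase 0)
      (fun u => M K j u - c) (fun u => ψ.f ((u + 1)⁻¹))
    refine hcs.trans ?_
    have h1 : ∑ u ∈ (Finset.univ.erase (1 : K)).erase 0, ψ.f ((u + 1)⁻¹) ^ 2 ≤ qq K := by
      have h2 : ∀ u ∈ (Finset.univ.erase (1 : K)).erase 0, ψ.f ((u + 1)⁻¹) ^ 2 = 1 := by
        intro u _
        rw [sq, ψ.mul_self]
      rw [Finset.sum_congr rfl h2, Finset.sum_const, nsmul_eq_mul, mul_one]
      unfold qq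
      exact_mod_cast Finset.card_le_univ _
    have h2 : ∑ u ∈ (Finset.univ.erase (1 : K)).erase 0, (M K j u - c) ^ 2 ≤ QQ K j := by
      unfold QQ
      apply Finset.sum_le_sum_of_subset_of_nonneg
      · intro x hx
        rw [Finset.mem_erase] at hx ⊢
        exact ⟨hx.1, Finset.mem_univ _⟩
      · intro x _ _
        exact sq_nonneg _
    calc _ ≤ QQ K j * qq K := by
          apply mul_le_mul h2 h1
          · exact Finset.sum_nonneg (fun _ _ => sq_nonneg _)
          · exact QQ_nonneg j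
      _ = qq K * QQ K j := mul_comm _ _
  · have h1 := M_rec ψ j (one_ne_zero (α := K))
    rw [M_one ψ] at h1
    have h2 : ∑ a, ef K j a * ψ.f (1 * a) =
        - M K j 0 + ∑ u ∈ (Finset.univ.erase (1 : K)).erase 0, (M K j u - c) * ψ.f ((u + 1)⁻¹) := by
      have h3 : ∑ a, ef K j a * ψ.f (1 * a) =
          ∑ u ∈ Finset.univ.erase (1 : K), M K j u * ψ.f ((u + 1)⁻¹) := by
        rw [← Finset.add_sum_erase _ _ (Finset.mem_univ (0 : K))]
        rw [← sum_reindex (fun u => M K j u * ψ.f ((u + 1)⁻¹))]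
        unfold ef
        rw [if_pos rfl, zero_mul, zero_add]
        apply Finset.sum_congr rfl
        intro a ha
        rw [if_neg (Finset.mem_erase.mp ha).1, add_add_cancel', inv_inv, one_mul]
      have h4 : ∑ u ∈ Finset.univ.erase (1 : K), ψ.f ((u + 1)⁻¹) = -1 := by
        have h5 : ∑ u ∈ Finset.univ.erase (1 : K), ψ.f ((u + 1)⁻¹) =
            ∑ a ∈ Finset.univ.erase (0 : K), ψ.f a := by
          rw [← sum_reindex (fun u => ψ.f ((u + 1)⁻¹))]
          apply Finset.sum_congr rfl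
          intro a _
          rw [add_add_cancel', inv_inv]
        have h6 := ψ.sum_mul' (1 : K)
        rw [if_neg one_ne_zero, ← Finset.add_sum_erase _ _ (Finset.mem_univ (0 : K))] at h6
        simp only [mul_one, ψ.zero] at h6
        rw [h5]
        linarith
      have h01 : (0 : K) ∈ Finset.univ.erase (1 : K) :=
        Finset.mem_erase.mpr ⟨zero_ne_one, Finset.mem_univ _⟩
      rw [← Finset.add_sum_erase _ _ h01] at h4
      rw [h3, ← Finset.add_sum_erase _ _ h01]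
      simp only [zero_add, inv_one, ψ.one] at h4 ⊢
      have h7 : ∑ x ∈ (Finset.univ.erase (1 : K)).erase 0, ψ.f ((x + 1)⁻¹) = 0 := by linarith
      have h8 : ∑ u ∈ (Finset.univ.erase (1 : K)).erase 0, (M K j u - c) * ψ.f ((u + 1)⁻¹) =
          ∑ u ∈ (Finset.univ.erase (1 : K)).erase 0, M K j u * ψ.f ((u + 1)⁻¹) -
            c * ∑ u ∈ (Finset.univ.erase (1 : K)).erase 0, ψ.f ((u + 1)⁻¹) := by
        rw [Finset.mul_sum, ← Finset.sum_sub_distrib]
        apply Finset.sum_congr rfl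
        intro u _
        ring
      rw [h8, h7]
      ring
    rw [h2] at h1
    have h3 : (j + 1 + 1) = j + 2 := rfl
    rw [h3] at h1
    linarith

theorem Gc_one (ψ : Chr K) : Gc K 1 = qq K - 1 := by
  have h := Gc_rec ψ 0
  rw [Gc_zero] at h
  norm_num at h
  linarith

theorem Nc_one (ψ : Chr K) : Nc K 1 = 0 := by
  have h := M_one ψ (K := K) 0
  rw [M_zero_ne (one_ne_zero)] at h
  norm_num at h
  linarith

theorem M_zero_zero : M K 0 0 = qq K - 1 := by
  rw [M_zero, Nc_zero]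
  norm_num

theorem M_one_val (ψ : Chr K) {u : K} (hu : u ≠ 0) :
    2 * M K 1 u = (qq K - 1) * (1 + ψ.f u) := by
  classical
  have h := M_rec ψ 0 hu
  rw [zero_add, Gc_one ψ, Nc_one ψ] at h
  have h1 : ∑ a, ef K 0 a * ψ.f (u * a) = (qq K - 1) * ψ.f u := by
    rw [Finset.sum_eq_single (1 : K)]
    · unfold ef
      rw [if_neg one_ne_zero, inv_one, add_self, M_zero_zero, mul_one]
    · intro b _ hb
      unfold ef
      split_ifs with hb0
      · ring
      · rw [M_zero_ne, zero_mul]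
        intro h2
        apply hb
        have h3 : b⁻¹ = 1 := add_eq_zero_iff'.mp h2
        exact inv_eq_one.mp h3
    · intro h2
      exact absurd (Finset.mem_univ _) h2
  rw [h1] at h
  linarith

theorem Nc_two (ψ : Chr K) : Nc K 2 = 0 := by
  have h := M_one ψ (K := K) 1
  have h1 := M_one_val ψ (one_ne_zero (α := K))
  rw [ψ.one] at h1
  norm_num at h h1
  rw [h1] at h
  linarith

theorem QQ_one (ψ : Chr K) : QQ K 1 = (qq K - 1) ^ 3 / 4 := by
  classical
  unfold QQ cc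
  rw [Gc_one ψ, Nc_one ψ]
  have h1 : ∀ u ∈ Finset.univ.erase (0 : K), (M K 1 u - (qq K - 1 - 0) / 2 ^ 1) ^ 2 =
      (qq K - 1) ^ 2 / 4 := by
    intro u hu
    have h2 := M_one_val ψ (Finset.mem_erase.mp hu).1
    have h3 : M K 1 u - (qq K - 1 - 0) / 2 ^ 1 = (qq K - 1) * ψ.f u / 2 := by linarith
    rw [h3]
    have h4 := ψ.mul_self u
    have h5 : ((qq K - 1) * ψ.f u / 2) ^ 2 = (qq K - 1) ^ 2 * (ψ.f u * ψ.f u) / 4 := by ring
    rw [h5, h4, mul_one]
  rw [Finset.sum_congr rfl h1, Finset.sum_const, nsmul_eq_mul,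
    Finset.card_erase_of_mem (Finset.mem_univ _), Finset.card_univ,
    Nat.cast_sub (Fintype.card_pos)]
  have : ((Fintype.card K : ℕ) : ℝ) = qq K := rfl
  rw [this]
  push_cast
  ring

end Pool.Agent.Carlet
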