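import Pool.Agent.Carlet.Ineq

set_option autoImplicit false
set_option linter.unusedSectionVars false

namespace Pool.Agent.Carlet

open Finset Module

variable {K : Type*} [Field K] [Fintype K] [Algebra (ZMod 2) K]

theorem el_bot : el (⊥ : Submodule (ZMod 2) K) = {0} := by
  ext x
  rw [mem_el, Submodule.mem_bot, Finset.mem_singleton]

theorem Lf_bot (x : K) : Lf (⊥ : Submodule (ZMod 2) K) x = x := by
  unfold Lf
  rw [el_bot, Finset.prod_singleton, add_zero]

theorem aH_bot : aH (⊥ : Submodule (ZMod 2) K) = 1 := by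
  unfold aH
  rw [el_bot]
  simp

theorem one_notMem_bot : (1 : K) ∉ (⊥ : Submodule (ZMod 2) K) := by
  rw [Submodule.mem_bot]
  exact one_ne_zero

open Classical in
theorem card_as (ψ : Chr K) (t : K) :
    ((Finset.univ.filter (fun y : K => y * (y + 1) = t)).card : ℝ) = 1 + ψ.f t := by
  have h := ψ.card_fiber (ext ⊥ 1) t
  rw [sum_perp] at h
  have h1 : ∀ y : K, Lf (ext ⊥ 1) y = y * (y + 1) := by
    intro y
    rw [Lf_ext one_notMem_bot, Lf_bot, Lf_bot]
  simp only [h1] at h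
  rw [h]
  congr 1
  have hcv : Cv (⊥ : Submodule (ZMod 2) K) (ext ⊥ 1) := cv_ext one_notMem_bot
  have hcard : (Hyp (ext (⊥ : Submodule (ZMod 2) K) 1)).card = 1 := by
    rw [card_Hyp ψ, finrank_ext one_notMem_bot, finrank_bot]
    norm_num
  have hHyp : Hyp (ext (⊥ : Submodule (ZMod 2) K) 1) = {⊥} := by
    obtain ⟨a, ha⟩ := Finset.card_eq_one.mp hcard
    have hmem : (⊥ : Submodule (ZMod 2) K) ∈ Hyp (ext (⊥ : Submodule (ZMod 2) K) 1) :=
      mem_Hyp.mpr hcv
    rw [ha, Finset.mem_singleton] at hmem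
    rw [ha, hmem]
  rw [hHyp, Finset.sum_singleton, aH_ext one_notMem_bot, aH_bot, Lf_bot]
  norm_num

open Classical in
/-- coefficient function of Kloosterman sums -/
noncomputable def EE (ψ : Chr K) (z : K) : ℝ := if z = 0 then 0 else ψ.f z⁻¹

noncomputable def kl (ψ : Chr K) (b : K) : ℝ := ∑ z, EE ψ z * ψ.f (b * z)

theorem EE_sum (ψ : Chr K) : ∑ z, EE ψ z = -1 := by
  classical
  have h := ψ.sum_mul' (1 : K)
  rw [if_neg one_ne_zero, ← Finset.add_sum_erase _ _ (Finset.mem_univ (0 : K))] at h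
  simp only [mul_one, ψ.zero] at h
  have h1 : ∑ z, EE ψ z = ∑ z ∈ Finset.univ.erase (0 : K), ψ.f z := by
    rw [← Finset.add_sum_erase _ _ (Finset.mem_univ (0 : K))]
    unfold EE
    rw [if_pos rfl, zero_add]
    apply Finset.sum_nbij' (fun a => a⁻¹) (fun a => a⁻¹)
    · intro a ha
      rw [Finset.mem_erase] at ha ⊢
      exact ⟨inv_ne_zero ha.1, Finset.mem_univ _⟩
    · intro a ha
      rw [Finset.mem_erase] at ha ⊢
      exact ⟨inv_ne_zero ha.1, Finset.mem_univ _⟩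
    · intro a _
      exact inv_inv a
    · intro a _
      exact inv_inv a
    · intro a ha
      rw [if_neg (Finset.mem_erase.mp ha).1]
  rw [h1]
  linarith

theorem kl_zero (ψ : Chr K) : kl ψ 0 = -1 := by
  unfold kl
  rw [← EE_sum ψ]
  apply Finset.sum_congr rfl
  intro z _
  rw [zero_mul, ψ.zero, mul_one]

theorem EE_sq_sum (ψ : Chr K) : ∑ z, EE ψ z ^ 2 = qq K - 1 := by
  classical
  rw [← Finset.add_sum_erase _ _ (Finset.mem_univ (0 : K))]
  have h1 : EE ψ (0 : K) = 0 := by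
    unfold EE
    rw [if_pos rfl]
  have h2 : ∀ z ∈ Finset.univ.erase (0 : K), EE ψ z ^ 2 = 1 := by
    intro z hz
    unfold EE
    rw [if_neg (Finset.mem_erase.mp hz).1, sq, ψ.mul_self]
  rw [h1, Finset.sum_congr rfl h2, Finset.sum_const, nsmul_eq_mul,
    Finset.card_erase_of_mem (Finset.mem_univ _), Finset.card_univ,
    Nat.cast_sub (Fintype.card_pos)]
  unfold qq
  push_cast
  ring

theorem kl_sum_sq (ψ : Chr K) : ∑ b, kl ψ b ^ 2 = qq K * (qq K - 1) := by
  unfold kl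
  rw [ψ.parseval (EE ψ), EE_sq_sum]
  rfl

theorem kl_sum (ψ : Chr K) : ∑ b, kl ψ b = 0 := by
  classical
  unfold kl
  rw [Finset.sum_comm]
  apply Finset.sum_eq_zero
  intro z _
  rw [← Finset.mul_sum, ψ.sum_mul']
  by_cases hz : z = 0
  · unfold EE
    rw [if_pos hz, zero_mul]
  · rw [if_neg hz, mul_zero]

noncomputable def rr (ψ : Chr K) (s : K) : ℝ := ∑ x, EE ψ x * EE ψ (x + s)

theorem kl_sq (ψ : Chr K) (b : K) : kl ψ b ^ 2 = ∑ s, rr ψ s * ψ.f (b * s) := by
  unfold kl rr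
  rw [sq, Finset.sum_mul_sum]
  calc ∑ x, ∑ y, EE ψ x * ψ.f (b * x) * (EE ψ y * ψ.f (b * y))
      = ∑ x, ∑ s, EE ψ x * ψ.f (b * x) * (EE ψ (s + x) * ψ.f (b * (s + x))) := by
        apply Finset.sum_congr rfl
        intro x _
        exact (Equiv.sum_comp (Equiv.addRight x)
          (fun y => EE ψ x * ψ.f (b * x) * (EE ψ y * ψ.f (b * y)))).symm
    _ = ∑ s, ∑ x, EE ψ x * ψ.f (b * x) * (EE ψ (s + x) * ψ.f (b * (s + x))) := Finset.sum_comm
    _ = ∑ s, (∑ x, EE ψ x * EE ψ (x + s)) * ψ.f (b * s) := by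
        apply Finset.sum_congr rfl
        intro s _
        rw [Finset.sum_mul]
        apply Finset.sum_congr rfl
        intro x _
        have h1 := ψ.mul_self (b * x)
        rw [mul_add, ψ.add, add_comm s x]
        calc EE ψ x * ψ.f (b * x) * (EE ψ (x + s) * (ψ.f (b * s) * ψ.f (b * x)))
            = EE ψ x * EE ψ (x + s) * ψ.f (b * s) * (ψ.f (b * x) * ψ.f (b * x)) := by ring
          _ = _ := by rw [h1, mul_one]

theorem rr_zero (ψ : Chr K) : rr ψ 0 = qq K - 1 := by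
  unfold rr
  rw [← EE_sq_sum ψ]
  apply Finset.sum_congr rfl
  intro x _
  rw [add_zero, sq]

theorem rr_ne (ψ : Chr K) {s : K} (hs : s ≠ 0) : rr ψ s = kl ψ s⁻¹ - 1 := by
  classical
  -- substitute x = s * v
  have h1 : rr ψ s = ∑ v, EE ψ (s * (v * (v + 1))) := by
    unfold rr
    rw [← Equiv.sum_comp (Equiv.mulLeft₀ s hs)]
    apply Finset.sum_congr rfl
    intro v _
    change EE ψ (s * v) * EE ψ (s * v + s) = _
    unfold EE
    by_cases hv : v = 0
    · rw [if_pos (show s * v = 0 by rw [hv, mul_zero]),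
        if_pos (show s * (v * (v + 1)) = 0 by rw [hv]; ring), zero_mul]
    · by_cases hv1 : v + 1 = 0
      · rw [if_pos (show s * v + s = 0 by rw [← mul_add_one, hv1, mul_zero]),
          if_pos (show s * (v * (v + 1)) = 0 by rw [hv1]; ring), mul_zero]
      · rw [if_neg (mul_ne_zero hs hv), if_neg (show s * v + s ≠ 0 by
          rw [← mul_add_one]; exact mul_ne_zero hs hv1),
          if_neg (mul_ne_zero hs (mul_ne_zero hv hv1)), ← ψ.add]
        congr 1
        have h2 : s * v + s ≠ 0 := by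
          rw [← mul_add_one]; exact mul_ne_zero hs hv1
        have h3 : v + v = 0 := add_self v
        have h4 : (s * v)⁻¹ + (s * v + s)⁻¹ = (s * v + (s * v + s)) / ((s * v) * (s * v + s)) := by
          field_simp
          ring
        rw [h4]
        have h5 : s * v + (s * v + s) = s := by
          linear_combination s * h3
        rw [h5, ← mul_add_one]
        field_simp
  -- fiber over t = v (v+1)
  have h2 : ∑ v, EE ψ (s * (v * (v + 1))) = ∑ t, (1 + ψ.f t) * EE ψ (s * t) := by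
    rw [← Finset.sum_fiberwise_of_maps_to (t := Finset.univ) (g := fun v : K => v * (v + 1))
      (fun _ _ => Finset.mem_univ _)]
    apply Finset.sum_congr rfl
    intro t _
    rw [← card_as ψ t]
    have : ∀ v ∈ Finset.univ.filter (fun v : K => v * (v + 1) = t),
        EE ψ (s * (v * (v + 1))) = EE ψ (s * t) := by
      intro v hv
      rw [(Finset.mem_filter.mp hv).2]
    rw [Finset.sum_congr rfl this, Finset.sum_const, nsmul_eq_mul]
  have h3 : ∑ t, (1 + ψ.f t) * EE ψ (s * t) = ∑ t, EE ψ (s * t) + ∑ t, EE ψ (s * t) * ψ.f t := by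
    rw [← Finset.sum_add_distrib]
    apply Finset.sum_congr rfl
    intro t _
    ring
  have h4 : ∑ t, EE ψ (s * t) = -1 := by
    rw [← EE_sum ψ]
    exact Equiv.sum_comp (Equiv.mulLeft₀ s hs) (fun z => EE ψ z)
  have h5 : ∑ t, EE ψ (s * t) * ψ.f t = kl ψ s⁻¹ := by
    unfold kl
    rw [← Equiv.sum_comp (Equiv.mulLeft₀ s hs) (fun z => EE ψ z * ψ.f (s⁻¹ * z))]
    apply Finset.sum_congr rfl
    intro t _
    change EE ψ (s * t) * ψ.f t = EE ψ (s * t) * ψ.f (s⁻¹ * (s * t))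
    rw [inv_mul_cancel_left₀ hs]
  rw [h1, h2, h3, h4, h5]
  ring

theorem kl_sum_four (ψ : Chr K) :
    ∑ b, kl ψ b ^ 4 = qq K * (2 * qq K ^ 2 - 2 * qq K - 3) := by
  classical
  have h1 : ∑ b, kl ψ b ^ 4 = ∑ b, (∑ s, rr ψ s * ψ.f (b * s)) ^ 2 := by
    apply Finset.sum_congr rfl
    intro b _
    rw [← kl_sq, ← pow_mul]
  rw [h1, ψ.parseval]
  have h2 : ∑ s, rr ψ s ^ 2 = 2 * qq K ^ 2 - 2 * qq K - 3 := by
    rw [← Finset.add_sum_erase _ _ (Finset.mem_univ (0 : K)), rr_zero]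
    have h3 : ∑ s ∈ Finset.univ.erase (0 : K), rr ψ s ^ 2 =
        ∑ b ∈ Finset.univ.erase (0 : K), (kl ψ b - 1) ^ 2 := by
      apply Finset.sum_nbij' (fun a => a⁻¹) (fun a => a⁻¹)
      · intro a ha
        rw [Finset.mem_erase] at ha ⊢
        exact ⟨inv_ne_zero ha.1, Finset.mem_univ _⟩
      · intro a ha
        rw [Finset.mem_erase] at ha ⊢
        exact ⟨inv_ne_zero ha.1, Finset.mem_univ _⟩
      · intro a _
        exact inv_inv a
      · intro a _
        exact inv_inv a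
      · intro a ha
        rw [rr_ne ψ (Finset.mem_erase.mp ha).1]
    rw [h3]
    have h4 : ∑ b, (kl ψ b - 1) ^ 2 = qq K * (qq K - 1) + qq K := by
      have : ∀ b, (kl ψ b - 1) ^ 2 = kl ψ b ^ 2 - 2 * kl ψ b + 1 := fun b => by ring
      simp only [this, Finset.sum_add_distrib, Finset.sum_sub_distrib, ← Finset.mul_sum,
        kl_sum_sq, kl_sum, Finset.sum_const, nsmul_eq_mul, Finset.card_univ]
      unfold qq
      ring
    rw [← Finset.add_sum_erase _ _ (Finset.mem_univ (0 : K)), kl_zero] at h4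
    linarith
  rw [h2]
  rfl

/-- Upper bound for the Kloosterman sum at 1. -/
theorem kl_one_ne (ψ : Chr K) (hq : 128 ≤ qq K) : kl ψ 1 ≠ (qq K + 1) / 3 := by
  classical
  intro hk
  have h2 := kl_sum_sq ψ
  have h4 := kl_sum_four ψ
  have hmem : (1 : K) ∈ Finset.univ.erase (0 : K) :=
    Finset.mem_erase.mpr ⟨one_ne_zero, Finset.mem_univ _⟩
  rw [← Finset.add_sum_erase _ _ (Finset.mem_univ (0 : K)), kl_zero,
    ← Finset.add_sum_erase _ _ hmem, hk] at h2 h4
  set R := (Finset.univ.erase (0 : K)).erase 1 with hR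
  have hcs := Finset.sum_mul_sq_le_sq_mul_sq R (fun _ => (1 : ℝ)) (fun b => kl ψ b ^ 2)
  simp only [one_mul, one_pow, Finset.sum_const, nsmul_eq_mul, mul_one] at hcs
  have hcard : (R.card : ℝ) ≤ qq K := by
    unfold qq
    exact_mod_cast Finset.card_le_univ _
  have h5 : ∑ x ∈ R, (kl ψ x ^ 2) ^ 2 = ∑ x ∈ R, kl ψ x ^ 4 := by
    apply Finset.sum_congr rfl
    intro x _
    ring
  rw [h5] at hcs
  set q := qq K with hqdef
  have h6 : ∑ x ∈ R, kl ψ x ^ 4 = 2 * q ^ 3 - 2 * q ^ 2 - 3 * q - 1 - ((q + 1) / 3) ^ 4 := by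
    linarith
  have h7 : ∑ x ∈ R, kl ψ x ^ 2 = q ^ 2 - q - 1 - ((q + 1) / 3) ^ 2 := by
    linarith
  rw [h6, h7] at hcs
  have h8 : (0 : ℝ) ≤ 2 * q ^ 3 - 2 * q ^ 2 - 3 * q - 1 - ((q + 1) / 3) ^ 4 := by
    rw [← h6]
    exact Finset.sum_nonneg (fun x _ => by positivity)
  have h9 : (q ^ 2 - q - 1 - ((q + 1) / 3) ^ 2) ^ 2 ≤
      q * (2 * q ^ 3 - 2 * q ^ 2 - 3 * q - 1 - ((q + 1) / 3) ^ 4) :=
    hcs.trans (mul_le_mul_of_nonneg_right hcard h8)
  obtain ⟨t, ht⟩ : ∃ t, q = 128 + t := ⟨q - 128, by ring⟩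
  have ht0 : 0 ≤ t := by linarith
  rw [ht] at h9
  nlinarith [pow_nonneg ht0 2, pow_nonneg ht0 3, pow_nonneg ht0 4, pow_nonneg ht0 5]

theorem Nc_three_pos (ψ : Chr K) (hq : 128 ≤ qq K) : 0 < Nc K 3 := by
  classical
  have h := M_rec ψ 1 (one_ne_zero (α := K))
  rw [M_one ψ, Nc_two ψ] at h
  have hG2 : Gc K 2 = (qq K - 1) * (qq K - 2) / 6 := by
    have h1 := Gc_rec ψ (K := K) 1
    rw [Gc_one ψ] at h1
    norm_num at h1
    linarith
  have h1 : ∑ a, ef K 1 a * ψ.f (1 * a) = -((qq K - 1) / 2 * (kl ψ 1 - 1)) := by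
    have hef : ∀ a ∈ (Finset.univ.erase (0 : K)).erase 1, ef K 1 a * ψ.f (1 * a) =
        (qq K - 1) / 2 * ψ.f (a * 1) - (qq K - 1) / 2 * (EE ψ a * ψ.f (1 * a)) := by
      intro a ha
      rw [Finset.mem_erase, Finset.mem_erase] at ha
      unfold ef EE
      rw [if_neg ha.2.1, if_neg ha.2.1]
      have hne : a⁻¹ + 1 ≠ 0 := by
        intro h2
        apply ha.1
        exact inv_eq_one.mp (add_eq_zero_iff'.mp h2)
      have h3 := M_one_val ψ hne
      rw [ψ.add, ψ.one] at h3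
      have h4 : M K 1 (a⁻¹ + 1) = (qq K - 1) / 2 * (1 - ψ.f a⁻¹) := by linarith
      rw [h4, mul_one, one_mul]
      ring
    have hmem : (1 : K) ∈ Finset.univ.erase (0 : K) :=
      Finset.mem_erase.mpr ⟨one_ne_zero, Finset.mem_univ _⟩
    rw [← Finset.add_sum_erase _ _ (Finset.mem_univ (0 : K)), ← Finset.add_sum_erase _ _ hmem,
      Finset.sum_congr rfl hef, Finset.sum_sub_distrib, ← Finset.mul_sum, ← Finset.mul_sum]
    have e0 : ef K 1 (0 : K) = 0 := by unfold ef; rw [if_pos rfl]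
    have e1 : ef K 1 (1 : K) = 0 := by
      unfold ef
      rw [if_neg one_ne_zero, inv_one, add_self, M_zero, Nc_one ψ, zero_mul]
    rw [e0, e1]
    have hs := ψ.sum_mul' (1 : K)
    rw [if_neg one_ne_zero, ← Finset.add_sum_erase _ _ (Finset.mem_univ (0 : K)),
      ← Finset.add_sum_erase _ _ hmem] at hs
    simp only [zero_mul, ψ.zero, one_mul, ψ.one] at hs
    have hk : kl ψ 1 = 1 + ∑ a ∈ (Finset.univ.erase (0 : K)).erase 1, EE ψ a * ψ.f (1 * a) := by
      unfold kl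
      rw [← Finset.add_sum_erase _ _ (Finset.mem_univ (0 : K)), ← Finset.add_sum_erase _ _ hmem]
      have e2 : EE ψ (0 : K) = 0 := by unfold EE; rw [if_pos rfl]
      have e3 : EE ψ (1 : K) = -1 := by
        unfold EE; rw [if_neg one_ne_zero, inv_one, ψ.one]
      rw [e2, e3, mul_one, ψ.one]
      ring
    have h5 : ∑ x ∈ (Finset.univ.erase (0 : K)).erase 1, ψ.f (x * 1) = 0 := by
      have : ∑ x ∈ (Finset.univ.erase (0 : K)).erase 1, ψ.f (x * 1) =
        ∑ x ∈ (Finset.univ.erase (0 : K)).erase 1, ψ.f (x * 1) := rfl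
      linarith
    rw [h5, hk]
    ring
  rw [h1, hG2] at h
  norm_num at h
  have hne := kl_one_ne ψ hq
  have hnn := Nc_nonneg (K := K) 3
  rcases lt_or_eq_of_le hnn with h2 | h2
  · exact h2
  · exfalso
    rw [← h2] at h
    apply hne
    have hq1 : qq K - 1 ≠ 0 := by linarith
    have h3 : (qq K - 1) * ((qq K + 1) / 3 - kl ψ 1) = 0 := by
      linarith
    rcases mul_eq_zero.mp h3 with h4 | h4
    · exact absurd h4 hq1
    · linarith

end Pool.Agent.Carlet
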